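import Pool.Agent.Helper262.RU1

set_option autoImplicit false

open MeasureTheory Set
open scoped ENNReal

/-!
Packaging of the levels of a lattice into a finite ordered family of candidates.
-/

namespace Pool.Agent.Helper651.CandOf

open H262RU

variable {E : Type*} [MeasurableSpace E]

/-- the list of candidates -/
noncomputable def lst (P : ℕ → Finset E) (Lmax : ℕ) : List (ℕ × E) :=
  (List.range (Lmax + 1)).flatMap fun L => (P L).toList.map fun w => (L, w)

theorem mem_lst (P : ℕ → Finset E) (Lmax : ℕ) (p : ℕ × E) :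
    p ∈ lst P Lmax ↔ p.1 ≤ Lmax ∧ p.2 ∈ P p.1 := by
  unfold lst
  simp only [List.mem_flatMap, List.mem_range, List.mem_map, Finset.mem_toList]
  constructor
  · rintro ⟨L, hL, w, hw, rfl⟩
    exact ⟨by simpa using Nat.lt_succ_iff.mp hL, hw⟩
  · rintro ⟨h1, h2⟩
    exact ⟨p.1, by omega, p.2, h2, rfl⟩

theorem nodup_lst (P : ℕ → Finset E) (Lmax : ℕ) : (lst P Lmax).Nodup := by
  unfold lst
  rw [List.nodup_flatMap]
  refine ⟨?_, ?_⟩
  · intro L _
    exact (Finset.nodup_toList _).map fun a b h => (Prod.mk.inj h).2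
  · refine (List.nodup_range).imp ?_
    intro a b hab
    rw [Function.onFun, List.disjoint_left]
    rintro ⟨x1, x2⟩ h1 h2
    simp only [List.mem_map, Prod.mk.injEq] at h1 h2
    obtain ⟨_, _, h1, _⟩ := h1
    obtain ⟨_, _, h2, _⟩ := h2
    exact hab (h1.trans h2.symm)

theorem sorted_lst (P : ℕ → Finset E) (Lmax : ℕ) :
    (lst P Lmax).Pairwise fun a b => a.1 ≤ b.1 := by
  unfold lst
  rw [List.pairwise_flatMap]
  refine ⟨?_, ?_⟩
  · intro L _
    rw [List.pairwise_map]
    exact List.pairwise_of_forall (fun _ _ => le_rfl)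
  · refine (List.pairwise_lt_range).imp ?_
    intro a b hab x hx y hy
    simp only [List.mem_map] at hx hy
    obtain ⟨_, _, rfl⟩ := hx
    obtain ⟨_, _, rfl⟩ := hy
    exact hab.le

theorem exists_cand [Nonempty E] (T : TS E) (CL : ℝ) (P : ℕ → Finset E)
    (hs : ∀ L, ∀ w ∈ P L, T.s w = (1 / 2 : ℝ) ^ L)
    (hcount : ∀ L (z : E) (r : ℝ), (1 / 2 : ℝ) ^ L ≤ r →
      (((P L).filter (fun w => T.d w z < r)).card : ℝ) ≤ CL * (r * 2 ^ L) ^ T.n)
    (hcover : ∀ L (z : E), T.s z ≤ (1 / 2 : ℝ) ^ L →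
      ∃ w ∈ P L, T.d z w ≤ 3 * (1 / 2 : ℝ) ^ L) (Lmax : ℕ) :
    ∃ c : Cand T CL, c.Lmax = Lmax ∧ (∀ i, i < c.N → c.w i ∈ P (c.L i)) ∧ 0 < c.N ∧ c.L 0 = 0 := by
  classical
  let l := lst P Lmax
  let g : ℕ → ℕ × E := fun i => (l[i]?).getD (0, Classical.arbitrary E)
  have hg : ∀ i (h : i < l.length), g i = l[i] := by
    intro i h
    simp [g, List.getElem?_eq_getElem h]
  have hgm : ∀ i, i < l.length → (g i).1 ≤ Lmax ∧ (g i).2 ∈ P (g i).1 := by
    intro i h
    rw [← mem_lst, hg i h]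
    exact List.getElem_mem h
  refine ⟨{ N := l.length, w := fun i => (g i).2, L := fun i => (g i).1, Lmax := Lmax,
            L_mono := ?_, L_le := fun i hi => (hgm i hi).1,
            s_eq := fun i hi => hs _ _ (hgm i hi).2, count := ?_, cover := ?_ }, rfl,
            fun i hi => (hgm i hi).2, ?_, ?_⟩
  · intro i j hij hj
    rcases hij.eq_or_lt with rfl | h
    · exact le_rfl
    · have h1 := List.pairwise_iff_getElem.mp (sorted_lst P Lmax) i j (h.trans hj) hj h
      rw [hg i (h.trans hj), hg j hj]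
      exact h1
  · intro L z r hr
    refine le_trans ?_ (hcount L z r hr)
    norm_cast
    refine Finset.card_le_card_of_injOn (fun i => (g i).2) ?_ ?_
    · intro i hi
      simp only [Finset.coe_filter, Finset.mem_range, Set.mem_ofPred_eq] at hi
      obtain ⟨hi1, hi2, hi3⟩ := hi
      have := hgm i hi1
      rw [hi2] at this
      simp only [Finset.coe_filter, Set.mem_ofPred_eq]
      exact ⟨this.2, hi3⟩
    · intro i hi j hj hij
      simp only [Finset.coe_filter, Finset.mem_range, Set.mem_ofPred_eq] at hi hj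
      obtain ⟨hi1, hi2, hi3⟩ := hi
      obtain ⟨hj1, hj2, hj3⟩ := hj
      have h1 : g i = g j := Prod.ext (hi2.trans hj2.symm) hij
      rw [hg i hi1, hg j hj1] at h1
      exact (List.Nodup.getElem_inj_iff (nodup_lst P Lmax)).mp h1
  · intro z L hL hz
    obtain ⟨w, hw, hd⟩ := hcover L z hz
    have hmem : (L, w) ∈ l := (mem_lst P Lmax (L, w)).mpr ⟨hL, hw⟩
    obtain ⟨k, hk, hkw⟩ := List.getElem_of_mem hmem
    refine ⟨k, hk, ?_, ?_⟩
    · rw [hg k hk, hkw]
    · rw [hg k hk, hkw]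
      exact hd

  · obtain ⟨w, hw, _⟩ := hcover 0 (Classical.arbitrary E) (by simpa using T.s_le_one _)
    have hmem : (0, w) ∈ l := (mem_lst P Lmax (0, w)).mpr ⟨Nat.zero_le _, hw⟩
    exact List.length_pos_of_mem hmem
  · obtain ⟨w, hw, _⟩ := hcover 0 (Classical.arbitrary E) (by simpa using T.s_le_one _)
    have hmem : (0, w) ∈ l := (mem_lst P Lmax (0, w)).mpr ⟨Nat.zero_le _, hw⟩
    obtain ⟨k, hk, hkw⟩ := List.getElem_of_mem hmem
    have h0 : 0 < l.length := by omega
    change (g 0).1 = 0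
    rcases Nat.eq_zero_or_pos k with h | h
    · subst h
      rw [hg 0 hk, hkw]
    · have h1 := List.pairwise_iff_getElem.mp (sorted_lst P Lmax) 0 k h0 hk h
      rw [hg 0 h0]
      have h2 : (l[k]).1 = 0 := by rw [hkw]
      exact Nat.le_zero.mp (h1.trans h2.le)

end Pool.Agent.Helper651.CandOf
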