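import Pool.Agent.HpBall.Caps
import Pool.Agent.HpBall.Geom
import Pool.Agent.HpBall.Sphere
import Pool.Agent.Helper633.Geo1

set_option autoImplicit false

open MeasureTheory Set
open scoped ENNReal

/-!
A lattice of points in the ball of `ℂⁿ`: for every level `L` a finite set of points with
`1 - |w|² = 2^{-L}`, with the counting and covering properties for the nonisotropic
quasi-distance `|1 - <z,w>|`.
-/

namespace Pool.Agent.Helper651.Lattice

open Pool.Agent.HpBall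

variable {n : ℕ}

theorem rho_eq_d (z w : E n) : rho z w = Helper633.Geo.d z w := rfl

/-- upper bound for the caps around points of the closed ball -/
theorem cap_upper' (n : ℕ) (hn : 1 ≤ n) : ∃ C : ℝ, 0 < C ∧ ∀ z : E n, ‖z‖ ≤ 1 → ∀ R : ℝ, 0 < R →
    sig n {ξ | ‖ξ‖ = 1 ∧ rho ξ z < R} ≤ ENNReal.ofReal (C * R ^ n) := by
  obtain ⟨C, hC, h⟩ := cap_upper n hn
  refine ⟨C * 2 ^ n, by positivity, fun z hz R hR => ?_⟩
  have key : ∃ ζ : E n, ‖ζ‖ = 1 ∧ {ξ : E n | ‖ξ‖ = 1 ∧ rho ξ z < R} ⊆ {ξ | rho ξ ζ < 2 * R} := by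
    by_cases hz0 : z = 0
    · refine ⟨EuclideanSpace.single ⟨0, hn⟩ 1, by simp, ?_⟩
      rintro ξ ⟨hξ, hr⟩
      have h1 : rho ξ z = 1 := by simp [rho, hz0]
      have h2 := rho_le_two (x := ξ) (y := EuclideanSpace.single ⟨0, hn⟩ 1) hξ.le (by simp)
      simp only [Set.mem_ofPred_eq]
      linarith
    · have hzn : 0 < ‖z‖ := norm_pos_iff.mpr hz0
      refine ⟨((‖z‖⁻¹ : ℝ) : ℂ) • z, ?_, ?_⟩
      · rw [norm_smul, Complex.norm_real, Real.norm_eq_abs, abs_of_pos (by positivity)]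
        exact inv_mul_cancel₀ hzn.ne'
      · rintro ξ ⟨hξ, hr⟩
        simp only [Set.mem_ofPred_eq]
        have h1 : 1 - ‖z‖ ≤ rho ξ z := by
          rw [rho_comm]
          exact Helper633.Geo.one_sub_norm_le_d z ξ hξ.le
        have h2 : ‖inner ℂ ξ z‖ ≤ ‖z‖ := by
          calc ‖inner ℂ ξ z‖ ≤ ‖ξ‖ * ‖z‖ := norm_inner_le_norm _ _
            _ = ‖z‖ := by rw [hξ, one_mul]
        have h3 : rho ξ (((‖z‖⁻¹ : ℝ) : ℂ) • z) ≤ rho ξ z + (1 - ‖z‖) := by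
          unfold rho
          have h4 : (1 : ℂ) - inner ℂ ξ (((‖z‖⁻¹ : ℝ) : ℂ) • z) =
              (1 - inner ℂ ξ z) - (((‖z‖⁻¹ - 1 : ℝ)) : ℂ) * inner ℂ ξ z := by
            rw [inner_smul_right]
            push_cast
            ring
          rw [h4]
          refine (norm_sub_le _ _).trans ?_
          have h5 : 1 ≤ ‖z‖⁻¹ := (one_le_inv₀ hzn).mpr hz
          have h6 : ‖(((‖z‖⁻¹ - 1 : ℝ)) : ℂ) * inner ℂ ξ z‖ ≤ 1 - ‖z‖ := by
            rw [norm_mul, Complex.norm_real, Real.norm_eq_abs, abs_of_nonneg (by linarith)]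
            calc (‖z‖⁻¹ - 1) * ‖inner ℂ ξ z‖ ≤ (‖z‖⁻¹ - 1) * ‖z‖ := by
                  apply mul_le_mul_of_nonneg_left h2; linarith
              _ = 1 - ‖z‖ := by field_simp
          linarith
        linarith
  obtain ⟨ζ, hζ, hsub⟩ := key
  refine (measure_mono hsub).trans ((h ζ hζ (2 * R) (by linarith)).trans ?_)
  apply ENNReal.ofReal_le_ofReal
  rw [mul_pow]
  exact le_of_eq (by ring)

/-- separated sets of level `L` -/
def Sep (L : ℕ) (W : Finset (E n)) : Prop :=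
  (∀ w ∈ W, ‖w‖ ^ 2 = 1 - (1 / 2 : ℝ) ^ L) ∧
    ∀ w ∈ W, ∀ w' ∈ W, w ≠ w' → 2 * (1 / 2 : ℝ) ^ L ≤ rho w w'

theorem half_pow_le (L : ℕ) (hL : 1 ≤ L) : (1 / 2 : ℝ) ^ L ≤ 1 / 2 := by
  calc (1 / 2 : ℝ) ^ L ≤ (1 / 2 : ℝ) ^ 1 :=
        pow_le_pow_of_le_one (by norm_num) (by norm_num) hL
    _ = 1 / 2 := pow_one _

theorem count (n : ℕ) (hn : 1 ≤ n) : ∃ C : ℝ, 0 < C ∧ ∀ (L : ℕ), 1 ≤ L → ∀ W : Finset (E n),
    Sep L W → ∀ (z : E n) (r : ℝ), ‖z‖ ≤ 1 → (1 / 2 : ℝ) ^ L ≤ r →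
    ((W.filter (fun w => rho w z < r)).card : ℝ) ≤ C * (r * 2 ^ L) ^ n := by
  obtain ⟨C, hC, hup⟩ := cap_upper' n hn
  obtain ⟨c, hc, hlow⟩ := cap_lower n hn
  refine ⟨C / c * 20 ^ n, by positivity, ?_⟩
  intro L hL W hW z r hz hr
  set δ : ℝ := (1 / 2 : ℝ) ^ L with hδ
  have hδ0 : 0 < δ := by positivity
  have hδ1 : δ ≤ 1 / 2 := half_pow_le L hL
  have hr0 : 0 < r := lt_of_lt_of_le hδ0 hr
  set F := W.filter (fun w => rho w z < r) with hF
  -- the normalised points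
  have hnorm : ∀ w ∈ W, 0 < ‖w‖ ∧ 1 - δ ≤ ‖w‖ ∧ ‖w‖ < 1 := by
    intro w hw
    have h1 := hW.1 w hw
    have h0 := norm_nonneg w
    refine ⟨?_, ?_, ?_⟩
    · rcases h0.lt_or_eq with h | h
      · exact h
      · rw [← h] at h1; nlinarith
    · by_contra h
      push Not at h
      nlinarith
    · by_contra h
      push Not at h
      nlinarith
  let cap : E n → Set (E n) := fun w => {ξ | ‖ξ‖ = 1 ∧ rho ξ (((‖w‖⁻¹ : ℝ) : ℂ) • w) < δ / 4}
  have hnw : ∀ w ∈ W, ‖((‖w‖⁻¹ : ℝ) : ℂ) • w‖ = 1 := by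
    intro w hw
    obtain ⟨h1, _, _⟩ := hnorm w hw
    rw [norm_smul, Complex.norm_real, Real.norm_eq_abs, abs_of_pos (by positivity)]
    exact inv_mul_cancel₀ h1.ne'
  have hmeas : ∀ w, MeasurableSet (cap w) := by
    intro w
    have h1 : MeasurableSet {ξ : E n | ‖ξ‖ = 1} := (isClosed_eq continuous_norm continuous_const).measurableSet
    have h2 : MeasurableSet {ξ : E n | rho ξ (((‖w‖⁻¹ : ℝ) : ℂ) • w) < δ / 4} := by
      apply IsOpen.measurableSet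
      refine isOpen_lt ?_ continuous_const
      unfold rho
      fun_prop
    exact h1.inter h2
  have hcap_low : ∀ w ∈ W, ENNReal.ofReal (c * (δ / 4) ^ n) ≤ sig n (cap w) := by
    intro w hw
    refine (hlow _ (hnw w hw) (δ / 4) (by positivity) (by linarith)).trans ?_
    apply measure_mono_ae
    filter_upwards [sig_ae_norm hn] with ξ hξ h
    exact ⟨hξ, h⟩
  -- disjointness
  have hdisj : (F : Set (E n)).PairwiseDisjoint cap := by
    intro w hw w' hw' hne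
    have hwW : w ∈ W := Finset.mem_of_mem_filter w hw
    have hwW' : w' ∈ W := Finset.mem_of_mem_filter w' hw'
    rw [Function.onFun, Set.disjoint_left]
    rintro ξ ⟨hξ, h1⟩ ⟨_, h2⟩
    set ω := ((‖w‖⁻¹ : ℝ) : ℂ) • w with hω
    set ω' := ((‖w'‖⁻¹ : ℝ) : ℂ) • w' with hω'
    have h3 := sqrt_rho_triangle (x := ω) (y := ξ) (z := ω') (hnw w hwW).le hξ (hnw w' hwW').le
    rw [rho_comm ω ξ] at h3
    have h4 : Real.sqrt (rho ξ ω) < Real.sqrt (δ / 4) :=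
      Real.sqrt_lt_sqrt (rho_nonneg _ _) h1
    have h5 : Real.sqrt (rho ξ ω') < Real.sqrt (δ / 4) :=
      Real.sqrt_lt_sqrt (rho_nonneg _ _) h2
    have h6 : Real.sqrt (δ / 4) = Real.sqrt δ / 2 := by
      rw [show δ / 4 = δ / 2 ^ 2 by ring, Real.sqrt_div' _ (by norm_num), Real.sqrt_sq (by norm_num)]
    have h7 : rho ω ω' < δ := by
      have : Real.sqrt (rho ω ω') < Real.sqrt δ := by rw [h6] at h4 h5; linarith
      exact (Real.sqrt_lt_sqrt_iff (rho_nonneg _ _)).mp this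
    have h8 := hW.2 w hwW w' hwW' hne
    -- `rho w w' ≤ δ + (1-δ) rho ω ω'`
    have hww : ‖w‖ * ‖w'‖ = 1 - δ := by
      have e1 := hW.1 w hwW
      have e2 := hW.1 w' hwW'
      have e3 : ‖w‖ = ‖w'‖ := by
        have : ‖w‖ ^ 2 = ‖w'‖ ^ 2 := by rw [e1, e2]
        exact (pow_left_inj₀ (norm_nonneg _) (norm_nonneg _) (by norm_num)).mp this
      rw [← e3, ← sq]
      exact e1
    have hin : inner ℂ w w' = ((1 - δ : ℝ) : ℂ) * inner ℂ ω ω' := by
      obtain ⟨p1, _, _⟩ := hnorm w hwW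
      obtain ⟨p2, _, _⟩ := hnorm w' hwW'
      rw [hω, hω', inner_smul_left, inner_smul_right, Complex.conj_ofReal, ← hww]
      push_cast
      have q1 : ((‖w‖ : ℝ) : ℂ) ≠ 0 := by exact_mod_cast p1.ne'
      have q2 : ((‖w'‖ : ℝ) : ℂ) ≠ 0 := by exact_mod_cast p2.ne'
      field_simp
    have h9 : rho w w' ≤ δ + (1 - δ) * rho ω ω' := by
      unfold rho
      have : (1 : ℂ) - inner ℂ w w' = ((δ : ℝ) : ℂ) + ((1 - δ : ℝ) : ℂ) * (1 - inner ℂ ω ω') := by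
        rw [hin]; push_cast; ring
      rw [this]
      refine (norm_add_le _ _).trans ?_
      rw [norm_mul, Complex.norm_real, Complex.norm_real, Real.norm_eq_abs, Real.norm_eq_abs,
        abs_of_pos hδ0, abs_of_nonneg (by linarith)]
    have h10 := rho_nonneg ω ω'
    nlinarith
  -- all caps lie in a cap around `z`
  have hsub : (⋃ w ∈ F, cap w) ⊆ {ξ | ‖ξ‖ = 1 ∧ rho ξ z < 5 * r} := by
    intro ξ hξ
    simp only [mem_iUnion] at hξ
    obtain ⟨w, hw, hξ1, hξ2⟩ := hξ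
    refine ⟨hξ1, ?_⟩
    have hwW : w ∈ W := Finset.mem_of_mem_filter w hw
    have hwz : rho w z < r := (Finset.mem_filter.mp hw).2
    obtain ⟨p1, p2, p3⟩ := hnorm w hwW
    have h1 := Helper633.Geo.d_triangle ξ w z hξ1.le p3.le hz
    rw [← rho_eq_d, ← rho_eq_d, ← rho_eq_d] at h1
    have h2 : rho ξ w ≤ δ + δ / 4 := by
      have e1 : (1 : ℂ) - inner ℂ ξ w = ((1 - ‖w‖ : ℝ) : ℂ) +
          ((‖w‖ : ℝ) : ℂ) * (1 - inner ℂ ξ (((‖w‖⁻¹ : ℝ) : ℂ) • w)) := by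
        rw [inner_smul_right]
        push_cast
        have q1 : ((‖w‖ : ℝ) : ℂ) ≠ 0 := by exact_mod_cast p1.ne'
        field_simp
        ring
      unfold rho at hξ2 ⊢
      rw [e1]
      refine (norm_add_le _ _).trans ?_
      rw [norm_mul, Complex.norm_real, Complex.norm_real, Real.norm_eq_abs, Real.norm_eq_abs,
        abs_of_nonneg (by linarith), abs_of_pos p1]
      have := norm_nonneg ((1 : ℂ) - inner ℂ ξ (((‖w‖⁻¹ : ℝ) : ℂ) • w))
      nlinarith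
    linarith
  have hsum : (F.card : ℝ≥0∞) * ENNReal.ofReal (c * (δ / 4) ^ n) ≤
      ENNReal.ofReal (C * (5 * r) ^ n) := by
    calc (F.card : ℝ≥0∞) * ENNReal.ofReal (c * (δ / 4) ^ n)
        = ∑ w ∈ F, ENNReal.ofReal (c * (δ / 4) ^ n) := by
          rw [Finset.sum_const, nsmul_eq_mul]
      _ ≤ ∑ w ∈ F, sig n (cap w) :=
          Finset.sum_le_sum fun w hw => hcap_low w (Finset.mem_of_mem_filter w hw)
      _ = sig n (⋃ w ∈ F, cap w) := (measure_biUnion_finset hdisj fun w _ => hmeas w).symm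
      _ ≤ sig n {ξ | ‖ξ‖ = 1 ∧ rho ξ z < 5 * r} := measure_mono hsub
      _ ≤ _ := hup z hz (5 * r) (by linarith)
  have hreal : (F.card : ℝ) * (c * (δ / 4) ^ n) ≤ C * (5 * r) ^ n := by
    have h1 : (F.card : ℝ≥0∞) = ENNReal.ofReal (F.card : ℝ) := by simp
    rw [h1, ← ENNReal.ofReal_mul (by positivity)] at hsum
    exact (ENNReal.ofReal_le_ofReal_iff (by positivity)).mp hsum
  have h2 : (0 : ℝ) < c * (δ / 4) ^ n := by positivity
  have h3 : (F.card : ℝ) ≤ C * (5 * r) ^ n / (c * (δ / 4) ^ n) := by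
    rwa [le_div_iff₀ h2]
  refine h3.trans (le_of_eq ?_)
  have h4 : δ * 2 ^ L = 1 := by
    rw [hδ, ← mul_pow]
    norm_num
  have h5 : (2 : ℝ) ^ L = δ⁻¹ := eq_inv_of_mul_eq_one_right h4
  rw [h5, mul_pow, div_pow, mul_pow, inv_pow, show (20 : ℝ) = 5 * 4 by norm_num, mul_pow]
  have h6 : δ ^ n ≠ 0 := by positivity
  field_simp

theorem exists_max (n : ℕ) (hn : 1 ≤ n) (L : ℕ) (hL : 1 ≤ L) : ∃ W : Finset (E n), Sep L W ∧
    ∀ z : E n, ‖z‖ ^ 2 = 1 - (1 / 2 : ℝ) ^ L → ∃ w ∈ W, rho z w < 2 * (1 / 2 : ℝ) ^ L := by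
  obtain ⟨C, hC, hcount⟩ := count n hn
  let S : Set ℕ := {k | ∃ W : Finset (E n), Sep L W ∧ W.card = k}
  have hne : S.Nonempty := ⟨0, ∅, ⟨by simp, by simp⟩, rfl⟩
  have hbd : BddAbove S := by
    refine ⟨⌈C * (2 * 2 ^ L) ^ n⌉₊, ?_⟩
    rintro k ⟨W, hW, rfl⟩
    have h1 := hcount L hL W hW 0 2 (by simp) ((half_pow_le L hL).trans (by norm_num))
    have h2 : W.filter (fun w => rho w (0 : E n) < 2) = W := by
      apply Finset.filter_true_of_mem
      intro w _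
      simp [rho]
    rw [h2] at h1
    have := h1.trans (Nat.le_ceil _)
    exact_mod_cast this
  obtain ⟨W, hW, hcard⟩ := Nat.sSup_mem hne hbd
  refine ⟨W, hW, ?_⟩
  intro z hz
  by_contra hcon
  push Not at hcon
  have hzW : z ∉ W := by
    intro hmem
    have h1 := hcon z hmem
    have h2 : rho z z = (1 / 2 : ℝ) ^ L := by
      rw [rho_eq_d, Helper633.Geo.d_self z ?_, Helper633.Geo.s, hz]
      · ring
      · have : (0 : ℝ) < (1 / 2 : ℝ) ^ L := by positivity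
        nlinarith [norm_nonneg z]
    rw [h2] at h1
    have : (0 : ℝ) < (1 / 2 : ℝ) ^ L := by positivity
    linarith
  classical
  have hins : Sep L (insert z W) := by
    refine ⟨?_, ?_⟩
    · intro w hw
      rcases Finset.mem_insert.mp hw with rfl | h
      · exact hz
      · exact hW.1 w h
    · intro w hw w' hw' hne
      rcases Finset.mem_insert.mp hw with h | h <;> rcases Finset.mem_insert.mp hw' with h' | h'
      · exact absurd (h.trans h'.symm) hne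
      · rw [h]; exact hcon w' h'
      · rw [h', rho_comm]; exact hcon w h
      · exact hW.2 w h w' h' hne
  have h1 : (insert z W).card ∈ S := ⟨_, hins, rfl⟩
  have h2 := le_csSup hbd h1
  rw [Finset.card_insert_of_notMem hzW, ← hcard] at h2
  omega

/-- the lattice -/
theorem lattice' (n : ℕ) (hn : 1 ≤ n) : ∃ C : ℝ, 0 < C ∧ ∃ T : ℕ → Finset (E n),
    T 0 = {0} ∧ (∀ L, ∀ w ∈ T L, 1 - ‖w‖ ^ 2 = (1 / 2 : ℝ) ^ L) ∧
    (∀ L (z : E n) (r : ℝ), ‖z‖ ≤ 1 → (1 / 2 : ℝ) ^ L ≤ r →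
      (((T L).filter (fun w => ‖1 - inner ℂ w z‖ < r)).card : ℝ) ≤ C * (r * 2 ^ L) ^ n) ∧
    (∀ L (z : E n), ‖z‖ ≤ 1 → 1 - ‖z‖ ^ 2 ≤ (1 / 2 : ℝ) ^ L →
      ∃ w ∈ T L, ‖1 - inner ℂ z w‖ ≤ 3 * (1 / 2 : ℝ) ^ L) := by
  obtain ⟨C, hC, hcount⟩ := count n hn
  have hex : ∀ L : ℕ, ∃ W : Finset (E n), 1 ≤ L → (Sep L W ∧
    ∀ z : E n, ‖z‖ ^ 2 = 1 - (1 / 2 : ℝ) ^ L → ∃ w ∈ W, rho z w < 2 * (1 / 2 : ℝ) ^ L) := by
    intro L
    by_cases hL : 1 ≤ L
    · obtain ⟨W, hW⟩ := exists_max n hn L hL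
      exact ⟨W, fun _ => hW⟩
    · exact ⟨∅, fun h => absurd h hL⟩
  choose W hW using hex
  refine ⟨max C 1, by positivity, fun L => if L = 0 then {0} else W L, by simp, ?_, ?_, ?_⟩
  · intro L w hw
    by_cases hL : L = 0
    · subst hL
      simp at hw
      simp [hw]
    · simp only [if_neg hL] at hw
      have := (hW L (Nat.one_le_iff_ne_zero.mpr hL)).1.1 w hw
      rw [this]
      ring
  · intro L z r hz hr
    by_cases hL : L = 0
    · subst hL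
      have h1 : (1 : ℝ) ≤ r := by simpa using hr
      have h2 : ((({0} : Finset (E n)).filter (fun w => ‖1 - inner ℂ w z‖ < r)).card : ℝ) ≤ 1 := by
        have := Finset.card_filter_le ({0} : Finset (E n)) (fun w => ‖1 - inner ℂ w z‖ < r)
        rw [Finset.card_singleton] at this
        exact_mod_cast this
      simp only [if_true]
      refine h2.trans ?_
      rw [pow_zero, mul_one]
      have h3 : (1 : ℝ) ≤ r ^ n := one_le_pow₀ h1
      nlinarith [le_max_right C 1]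
    · simp only [if_neg hL]
      refine (hcount L (Nat.one_le_iff_ne_zero.mpr hL) (W L)
        (hW L (Nat.one_le_iff_ne_zero.mpr hL)).1 z r hz hr).trans ?_
      apply mul_le_mul_of_nonneg_right (le_max_left _ _)
      have : (0 : ℝ) < (1 / 2 : ℝ) ^ L := by positivity
      have h0 : 0 < r := by linarith
      positivity
  · intro L z hz hs
    by_cases hL : L = 0
    · subst hL
      exact ⟨0, by simp, by simp⟩
    · simp only [if_neg hL]
      have hL1 := Nat.one_le_iff_ne_zero.mpr hL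
      obtain ⟨hsep, hcov⟩ := hW L hL1
      set δ : ℝ := (1 / 2 : ℝ) ^ L with hδ
      have hδ0 : 0 < δ := by positivity
      have hδ1 : δ ≤ 1 / 2 := half_pow_le L hL1
      set ρ : ℝ := Real.sqrt (1 - δ) with hρ
      have hρ0 : 0 < ρ := Real.sqrt_pos.mpr (by linarith)
      have hρ2 : ρ ^ 2 = 1 - δ := Real.sq_sqrt (by linarith)
      have hzρ : ρ ≤ ‖z‖ := by
        by_contra h
        push Not at h
        nlinarith [norm_nonneg z]
      have hz0 : 0 < ‖z‖ := lt_of_lt_of_le hρ0 hzρ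
      set z' : E n := ((ρ / ‖z‖ : ℝ) : ℂ) • z with hz'
      have hz'n : ‖z'‖ = ρ := by
        rw [hz', norm_smul, Complex.norm_real, Real.norm_eq_abs, abs_of_pos (by positivity)]
        field_simp
      obtain ⟨w, hw, hd⟩ := hcov z' (by rw [hz'n, hρ2])
      refine ⟨w, hw, ?_⟩
      have hw2 := hsep.1 w hw
      have hw1 : ‖w‖ ≤ 1 := by
        by_contra h
        push Not at h
        nlinarith
      have h1 : (1 : ℂ) - inner ℂ z w = (1 - inner ℂ z' w) -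
          ((1 - ρ / ‖z‖ : ℝ) : ℂ) * inner ℂ z w := by
        rw [hz', inner_smul_left, Complex.conj_ofReal]
        push_cast
        ring
      rw [h1]
      refine (norm_sub_le _ _).trans ?_
      have h2 : ‖((1 - ρ / ‖z‖ : ℝ) : ℂ) * inner ℂ z w‖ ≤ δ := by
        have h3 : 0 ≤ 1 - ρ / ‖z‖ := by
          rw [sub_nonneg, div_le_one hz0]
          exact hzρ
        rw [norm_mul, Complex.norm_real, Real.norm_eq_abs, abs_of_nonneg h3]
        have h4 : ‖inner ℂ z w‖ ≤ ‖z‖ := by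
          calc ‖inner ℂ z w‖ ≤ ‖z‖ * ‖w‖ := norm_inner_le_norm _ _
            _ ≤ ‖z‖ * 1 := by gcongr
            _ = ‖z‖ := mul_one _
        calc (1 - ρ / ‖z‖) * ‖inner ℂ z w‖ ≤ (1 - ρ / ‖z‖) * ‖z‖ := by gcongr
          _ = ‖z‖ - ρ := by field_simp
          _ ≤ 1 - ρ := by linarith
          _ ≤ δ := by
            have : ρ ≤ 1 := hzρ.trans hz
            nlinarith
      have h5 : ‖1 - inner ℂ z' w‖ < 2 * δ := hd
      linarith

theorem lattice (n : ℕ) (hn : 1 ≤ n) : ∃ C : ℝ, 0 < C ∧ ∃ T : ℕ → Finset (E n),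
    (∀ L, ∀ w ∈ T L, 1 - ‖w‖ ^ 2 = (1 / 2 : ℝ) ^ L) ∧
    (∀ L (z : E n) (r : ℝ), ‖z‖ ≤ 1 → (1 / 2 : ℝ) ^ L ≤ r →
      (((T L).filter (fun w => ‖1 - inner ℂ w z‖ < r)).card : ℝ) ≤ C * (r * 2 ^ L) ^ n) ∧
    (∀ L (z : E n), ‖z‖ ≤ 1 → 1 - ‖z‖ ^ 2 ≤ (1 / 2 : ℝ) ^ L →
      ∃ w ∈ T L, ‖1 - inner ℂ z w‖ ≤ 3 * (1 / 2 : ℝ) ^ L) := by
  obtain ⟨C, hC, T, _, h⟩ := lattice' n hn
  exact ⟨C, hC, T, h⟩

end Pool.Agent.Helper651.Lattice
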