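import Pool.Agent.Helper633.Geo2
import Pool.Agent.Helper651.Lattice
import Pool.Agent.Helper651.CandOf

set_option autoImplicit false

/-!
Candidates in the ball: for every `Lmax` a finite ordered lattice of candidates of the tent space
`ts n hn` (Helper633/Geo2), with constant `CL` independent of `Lmax`.
-/

namespace Pool.Agent.Helper651.CandBall

open Pool.Agent.Helper633.Geo
open Pool.Agent.HpBall (E)

theorem cand (n : ℕ) (hn : 1 ≤ n) : ∃ CL : ℝ, 0 < CL ∧ ∀ Lmax : ℕ,
    ∃ c : H262RU.Cand (ts n hn) CL, c.Lmax = Lmax ∧ (∀ i, i < c.N → ‖c.w i‖ < 1) ∧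
      0 < c.N ∧ c.L 0 = 0 ∧ c.w 0 = 0 := by
  obtain ⟨C, hC, T, h0, hs, hcount, hcover⟩ := Lattice.lattice' n hn
  refine ⟨C, hC, fun Lmax => ?_⟩
  have hlt : ∀ L, ∀ w ∈ T L, ‖w‖ < 1 := by
    intro L w hw
    have h1 := hs L w hw
    have h2 : (0 : ℝ) < (1 / 2 : ℝ) ^ L := by positivity
    by_contra h
    push Not at h
    nlinarith
  obtain ⟨c, hc, hm, hN, hL0⟩ := CandOf.exists_cand (ts n hn) C T
    (by
      intro L w hw
      rw [ts_s n hn w (hlt L w hw).le]
      exact hs L w hw)
    (by
      intro L z r hr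
      have h1 := hcount L (ret z) r (norm_ret_le z) hr
      have h2 : (T L).filter (fun w => (ts n hn).d w z < r) =
          (T L).filter (fun w => ‖1 - inner ℂ w (ret z)‖ < r) := by
        apply Finset.filter_congr
        intro w hw
        have h3 : (ts n hn).d w z = ‖1 - inner ℂ w (ret z)‖ := by
          change dr w z = _
          unfold dr
          rw [ret_of_le w (hlt L w hw).le]
          rfl
        rw [h3]
      rw [h2]
      exact h1)
    (by
      intro L z hz
      obtain ⟨w, hw, hd⟩ := hcover L (ret z) (norm_ret_le z) hz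
      refine ⟨w, hw, ?_⟩
      have h3 : (ts n hn).d z w = ‖1 - inner ℂ (ret z) w‖ := by
        change dr z w = _
        unfold dr
        rw [ret_of_le w (hlt L w hw).le]
        rfl
      rw [h3]
      exact hd) Lmax
  refine ⟨c, hc, fun i hi => hlt _ _ (hm i hi), hN, hL0, ?_⟩
  have := hm 0 hN
  rw [hL0, h0] at this
  simpa using this

end Pool.Agent.Helper651.CandBall
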