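import Mathlib
open Finset
open scoped BigOperators

/-!
A Welch type inequality for the even moments of the Gram matrix of a finite family of vectors
(helper651, for MP_92436f_lc / helper380's polynomial bound for zero-rate list decoding).
-/

namespace Pool.Agent.H651Welch

section comb

variable {ι : Type*} [Fintype ι] [DecidableEq ι]

/-- stabiliser count of a tuple -/
def stab {j : ℕ} (p : Fin j → ι) : ℕ :=
  (univ.filter fun τ : Equiv.Perm (Fin j) => p ∘ τ = p).card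

/-- number of permutations carrying `p` to `p'` -/
def cnt {j : ℕ} (p p' : Fin j → ι) : ℕ :=
  (univ.filter fun τ : Equiv.Perm (Fin j) => p ∘ τ = p').card

omit [Fintype ι] in
lemma cnt_le_stab {j : ℕ} (p p' : Fin j → ι) : cnt p p' ≤ stab p := by
  unfold cnt stab
  by_cases h : ∃ σ : Equiv.Perm (Fin j), p ∘ σ = p'
  · obtain ⟨σ, hσ⟩ := h
    apply Finset.card_le_card_of_injOn (fun τ => τ * σ⁻¹)
    · intro τ hτ
      simp only [coe_filter, mem_univ, true_and, Set.mem_ofPred_eq] at hτ ⊢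
      funext s
      have h1 := congrFun hτ (σ⁻¹ s)
      have h2 := congrFun hσ (σ⁻¹ s)
      simp only [Function.comp] at h1 h2
      simp only [Function.comp, Equiv.Perm.mul_apply]
      rw [h1, ← h2]
      simp
    · intro a _ b _ hab
      exact mul_right_cancel hab
  · push Not at h
    have : (univ.filter fun τ : Equiv.Perm (Fin j) => p ∘ τ = p') = ∅ :=
      Finset.filter_eq_empty_iff.2 fun τ _ => h τ
    rw [this]; simp

lemma sum_cnt {j : ℕ} (p : Fin j → ι) : ∑ p' : Fin j → ι, cnt p p' = j.factorial := by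
  unfold cnt
  rw [← Finset.card_eq_sum_card_fiberwise (f := fun τ : Equiv.Perm (Fin j) => p ∘ τ)
    (s := univ) (t := univ) (fun _ _ => by simp)]
  rw [Finset.card_univ, Fintype.card_perm, Fintype.card_fin]

omit [Fintype ι] in
lemma stab_cons {j : ℕ} (i : ι) (q : Fin j → ι) :
    stab (Fin.cons i q : Fin (j+1) → ι) =
      (univ.filter fun a : Fin (j+1) => (Fin.cons i q : Fin (j+1) → ι) a = i).card * stab q := by
  unfold stab
  rw [← Finset.card_product]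
  symm
  apply Finset.card_bij (fun x _ => Equiv.Perm.decomposeFin.symm x)
  · intro x hx
    obtain ⟨a, e⟩ := x
    simp only [mem_product, mem_filter, mem_univ, true_and] at hx ⊢
    obtain ⟨ha, he⟩ := hx
    have hswap : ∀ b : Fin (j+1), (Fin.cons i q : Fin (j+1) → ι) (Equiv.swap 0 a b)
        = (Fin.cons i q : Fin (j+1) → ι) b := by
      intro b
      by_cases h0 : b = 0
      · subst h0; simp [ha]
      · by_cases h1 : b = a
        · subst h1; simp [ha]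
        · rw [Equiv.swap_apply_of_ne_of_ne h0 h1]
    funext b
    refine Fin.cases ?_ (fun s => ?_) b
    · simp [ha]
    · simp only [Function.comp, Equiv.Perm.decomposeFin_symm_apply_succ, hswap]
      simpa using congrFun he s
  · intro x _ y _ h
    exact Equiv.Perm.decomposeFin.symm.injective h
  · intro τ hτ
    simp only [mem_filter, mem_univ, true_and] at hτ
    refine ⟨Equiv.Perm.decomposeFin τ, ?_, by simp⟩
    obtain ⟨⟨a, e⟩, rfl⟩ := Equiv.Perm.decomposeFin.symm.surjective τ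
    simp only [Equiv.apply_symm_apply, mem_product, mem_filter, mem_univ, true_and]
    have ha : (Fin.cons i q : Fin (j+1) → ι) a = i := by
      have := congrFun hτ 0
      simpa using this
    refine ⟨ha, ?_⟩
    have hswap : ∀ b : Fin (j+1), (Fin.cons i q : Fin (j+1) → ι) (Equiv.swap 0 a b)
        = (Fin.cons i q : Fin (j+1) → ι) b := by
      intro b
      by_cases h0 : b = 0
      · subst h0; simp [ha]
      · by_cases h1 : b = a
        · subst h1; simp [ha]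
        · rw [Equiv.swap_apply_of_ne_of_ne h0 h1]
    funext s
    have := congrFun hτ s.succ
    simp only [Function.comp, Equiv.Perm.decomposeFin_symm_apply_succ, hswap] at this
    simpa using this

/-- the cycle-index type sum is bounded by a product -/
lemma sum_stab_le_prod (μ : ι → ℝ) (hμ : ∀ i, 0 ≤ μ i) (L : ℝ) (hL0 : 0 ≤ L)
    (hL : ∀ i, μ i ≤ L) (j : ℕ) :
    ∑ p : Fin j → ι, (∏ s, μ (p s)) * (stab p : ℝ) ≤ ∏ s ∈ range j, (∑ i, μ i + s * L) := by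
  induction j with
  | zero => simp [stab, Finset.filter_true_of_mem]
  | succ j ih =>
    rw [prod_range_succ, ← (Fin.consEquiv (fun _ => ι)).sum_comp, Fintype.sum_prod_type_right]
    have hc : ∀ (i : ι) (q : Fin j → ι),
        (((univ.filter fun a : Fin (j+1) => (Fin.cons i q : Fin (j+1) → ι) a = i).card : ℕ) : ℝ)
          = 1 + ∑ t, if q t = i then (1:ℝ) else 0 := by
      intro i q
      rw [Finset.card_filter]
      push_cast
      rw [Fin.sum_univ_succ]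
      simp
    have hstep : ∀ q : Fin j → ι,
        ∑ i, (∏ s, μ ((Fin.consEquiv (fun _ => ι)) (i, q) s)) *
          (stab ((Fin.consEquiv (fun _ => ι)) (i, q)) : ℝ)
        ≤ (∏ s, μ (q s)) * (stab q : ℝ) * (∑ i, μ i + j * L) := by
      intro q
      have e1 : ∀ i : ι, (∏ s, μ ((Fin.consEquiv (fun _ => ι)) (i, q) s)) *
          (stab ((Fin.consEquiv (fun _ => ι)) (i, q)) : ℝ)
          = (∏ s, μ (q s)) * (stab q : ℝ) * (μ i * (1 + ∑ t, if q t = i then (1:ℝ) else 0)) := by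
        intro i
        have : (Fin.consEquiv (fun _ => ι)) (i, q) = (Fin.cons i q : Fin (j+1) → ι) := rfl
        rw [this, stab_cons, Fin.prod_univ_succ]
        push_cast
        rw [hc]
        simp only [Fin.cons_zero, Fin.cons_succ]
        ring
      simp_rw [e1]
      rw [← mul_sum]
      apply mul_le_mul_of_nonneg_left
      · simp_rw [mul_add, mul_one, sum_add_distrib, mul_sum]
        rw [sum_comm]
        have : ∀ t : Fin j, ∑ i, μ i * (if q t = i then (1:ℝ) else 0) = μ (q t) := by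
          intro t; simp
        simp_rw [this]
        have : ∑ t : Fin j, μ (q t) ≤ ∑ t : Fin j, L := sum_le_sum fun t _ => hL _
        simp at this
        linarith
      · exact mul_nonneg (prod_nonneg fun s _ => hμ _) (Nat.cast_nonneg _)
    calc _ ≤ ∑ q : Fin j → ι, (∏ s, μ (q s)) * (stab q : ℝ) * (∑ i, μ i + j * L) :=
          sum_le_sum fun q _ => hstep q
      _ = (∑ q : Fin j → ι, (∏ s, μ (q s)) * (stab q : ℝ)) * (∑ i, μ i + j * L) := by
          rw [sum_mul]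
      _ ≤ _ := by
          apply mul_le_mul_of_nonneg_right ih
          have := sum_nonneg fun i (_ : i ∈ (univ : Finset ι)) => hμ i
          positivity

lemma sum_stab_le (μ : ι → ℝ) (hμ : ∀ i, 0 ≤ μ i) (L : ℝ) (hL0 : 0 ≤ L)
    (hL : ∀ i, μ i ≤ L) (j : ℕ) :
    ∑ p : Fin j → ι, (∏ s, μ (p s)) * (stab p : ℝ) ≤ (∑ i, μ i + j * L) ^ j := by
  refine (sum_stab_le_prod μ hμ L hL0 hL j).trans ?_
  have h0 := sum_nonneg fun i (_ : i ∈ (univ : Finset ι)) => hμ i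
  calc ∏ s ∈ range j, (∑ i, μ i + s * L) ≤ ∏ s ∈ range j, (∑ i, μ i + j * L) := by
        apply prod_le_prod
        · intro s _; positivity
        · intro s hs
          have : (s:ℝ) ≤ j := by exact_mod_cast (mem_range.1 hs).le
          nlinarith
    _ = _ := by simp

lemma core {α : Type*} (x : α → ι → ℝ) (V : Finset α) (j : ℕ) (lam : ι → ℝ) :
    (j.factorial : ℝ) * (∑ v ∈ V, (∑ i, lam i * x v i ^ 2) ^ j) ^ 2 ≤
      (∑ v ∈ V, ∑ w ∈ V, (∑ i, x v i * x w i) ^ (2 * j)) *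
        ∑ p : Fin j → ι, (∏ s, lam (p s) ^ 2) * (stab p : ℝ) := by
  set a : α → (Fin j → ι) → ℝ := fun v p => ∏ s, x v (p s) with ha
  set A : (Fin j → ι) → (Fin j → ι) → ℝ := fun p p' => ∑ v ∈ V, a v p * a v p' with hA
  set Lp : (Fin j → ι) → ℝ := fun p => ∏ s, lam (p s) with hLp
  have hS1 : (∑ v ∈ V, ∑ w ∈ V, (∑ i, x v i * x w i) ^ (2 * j)) = ∑ p, ∑ p', A p p' ^ 2 := by
    have h1 : ∀ v w, (∑ i, x v i * x w i) ^ (2 * j) =
        ∑ p, ∑ p', (a v p * a w p) * (a v p' * a w p') := by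
      intro v w
      rw [mul_comm 2 j, pow_mul, Fintype.sum_pow, sq, Finset.sum_mul_sum]
      simp only [ha, prod_mul_distrib]
    simp_rw [h1]
    have h2 : ∀ p p', A p p' ^ 2 = ∑ v ∈ V, ∑ w ∈ V, (a v p * a w p) * (a v p' * a w p') := by
      intro p p'
      simp only [hA]
      rw [sq, Finset.sum_mul_sum]
      refine sum_congr rfl fun v _ => sum_congr rfl fun w _ => by ring
    simp_rw [h2]
    calc ∑ v ∈ V, ∑ w ∈ V, ∑ p, ∑ p', (a v p * a w p) * (a v p' * a w p')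
        = ∑ v ∈ V, ∑ p, ∑ w ∈ V, ∑ p', (a v p * a w p) * (a v p' * a w p') :=
          sum_congr rfl fun v _ => sum_comm
      _ = ∑ p, ∑ v ∈ V, ∑ w ∈ V, ∑ p', (a v p * a w p) * (a v p' * a w p') := sum_comm
      _ = ∑ p, ∑ v ∈ V, ∑ p', ∑ w ∈ V, (a v p * a w p) * (a v p' * a w p') :=
          sum_congr rfl fun p _ => sum_congr rfl fun v _ => sum_comm
      _ = _ := sum_congr rfl fun p _ => sum_comm
  have hQ : (∑ v ∈ V, (∑ i, lam i * x v i ^ 2) ^ j) = ∑ p, Lp p * A p p := by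
    have h1 : ∀ v, (∑ i, lam i * x v i ^ 2) ^ j = ∑ p, Lp p * (a v p * a v p) := by
      intro v
      rw [Fintype.sum_pow]
      refine sum_congr rfl fun p _ => ?_
      simp only [ha, hLp, prod_mul_distrib, sq]
    simp_rw [h1]
    rw [sum_comm]
    refine sum_congr rfl fun p _ => ?_
    simp only [hA, mul_sum]
  have hAσ : ∀ (p : Fin j → ι) (σ : Equiv.Perm (Fin j)), A p (p ∘ σ) = A p p := by
    intro p σ
    simp only [hA, ha]
    refine sum_congr rfl fun v _ => ?_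
    congr 1
    exact Equiv.prod_comp σ (fun s => x v (p s))
  have hjQ : (j.factorial : ℝ) * ∑ p, Lp p * A p p = ∑ z : (Fin j → ι) × (Fin j → ι),
      A z.1 z.2 * (Lp z.1 * cnt z.1 z.2) := by
    rw [Fintype.sum_prod_type, mul_sum]
    refine sum_congr rfl fun p _ => ?_
    have h1 : ∀ p', A p p' * (Lp p * (cnt p p' : ℝ)) = Lp p * A p p * (cnt p p' : ℝ) := by
      intro p'
      by_cases h : ∃ σ : Equiv.Perm (Fin j), p ∘ σ = p'
      · obtain ⟨σ, rfl⟩ := h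
        rw [hAσ]; ring
      · push Not at h
        have : (univ.filter fun τ : Equiv.Perm (Fin j) => p ∘ τ = p') = ∅ :=
          Finset.filter_eq_empty_iff.2 fun τ _ => h τ
        unfold cnt
        rw [this]; simp
    simp_rw [h1]
    rw [← mul_sum, ← Nat.cast_sum, sum_cnt]
    ring
  have hcs := Finset.sum_mul_sq_le_sq_mul_sq (univ : Finset ((Fin j → ι) × (Fin j → ι)))
    (fun z => A z.1 z.2) (fun z => Lp z.1 * cnt z.1 z.2)
  rw [← hjQ] at hcs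
  have hS1' : ∑ z : (Fin j → ι) × (Fin j → ι), A z.1 z.2 ^ 2 = ∑ p, ∑ p', A p p' ^ 2 := by
    rw [Fintype.sum_prod_type]
  have hN : ∑ z : (Fin j → ι) × (Fin j → ι), (Lp z.1 * cnt z.1 z.2) ^ 2 ≤
      (j.factorial : ℝ) * ∑ p : Fin j → ι, (∏ s, lam (p s) ^ 2) * (stab p : ℝ) := by
    rw [Fintype.sum_prod_type, mul_sum]
    refine sum_le_sum fun p _ => ?_
    have h1 : ∀ p', (Lp p * (cnt p p' : ℝ)) ^ 2 ≤ Lp p ^ 2 * stab p * cnt p p' := by
      intro p'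
      have h2 : (cnt p p' : ℝ) ≤ stab p := by exact_mod_cast cnt_le_stab p p'
      have h3 : (0:ℝ) ≤ cnt p p' := Nat.cast_nonneg _
      nlinarith [mul_nonneg (sq_nonneg (Lp p)) (mul_nonneg h3 (sub_nonneg.2 h2))]
    calc ∑ p', (Lp p * (cnt p p' : ℝ)) ^ 2 ≤ ∑ p', Lp p ^ 2 * stab p * cnt p p' :=
          sum_le_sum fun p' _ => h1 p'
      _ = Lp p ^ 2 * stab p * j.factorial := by
          rw [← mul_sum, ← Nat.cast_sum, sum_cnt]
      _ ≤ _ := by
          simp only [hLp, ← prod_pow]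
          apply le_of_eq; ring
  rw [hS1', ← hS1] at hcs
  rw [hQ]
  have hj : (0:ℝ) < j.factorial := by exact_mod_cast Nat.factorial_pos j
  have hS1nn : 0 ≤ ∑ v ∈ V, ∑ w ∈ V, (∑ i, x v i * x w i) ^ (2 * j) := by
    rw [hS1]; positivity
  have := hcs.trans (mul_le_mul_of_nonneg_left hN hS1nn)
  rw [mul_pow] at this
  have h5 : (j.factorial : ℝ) * ((j.factorial : ℝ) * (∑ p, Lp p * A p p) ^ 2) ≤
    (j.factorial : ℝ) * ((∑ v ∈ V, ∑ w ∈ V, (∑ i, x v i * x w i) ^ (2 * j)) *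
        ∑ p : Fin j → ι, (∏ s, lam (p s) ^ 2) * (stab p : ℝ)) := by
    calc _ = (j.factorial : ℝ) ^ 2 * (∑ p, Lp p * A p p) ^ 2 := by ring
      _ ≤ _ := this
      _ = _ := by ring
  exact le_of_mul_le_mul_left h5 hj

end comb

section inner

open scoped InnerProductSpace

variable {E : Type*} [NormedAddCommGroup E] [InnerProductSpace ℝ E] [FiniteDimensional ℝ E]

/-- a finite family of vectors has uncorrelated coordinates in a suitable orthonormal basis -/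
lemma exists_diag {α : Type*} (V : Finset α) (y : α → E) :
    ∃ b : OrthonormalBasis (Fin (Module.finrank ℝ E)) ℝ E,
      ∀ i k, i ≠ k → ∑ c ∈ V, ⟪b i, y c⟫_ℝ * ⟪b k, y c⟫_ℝ = 0 := by
  let T : E →ₗ[ℝ] E := ∑ c ∈ V, (innerₗ E (y c)).smulRight (y c)
  have hT : ∀ z, T z = ∑ c ∈ V, ⟪y c, z⟫_ℝ • y c := by
    intro z; simp [T]
  have hsym : T.IsSymmetric := by
    intro z w
    rw [hT, hT, sum_inner, inner_sum]
    refine sum_congr rfl fun c _ => ?_
    rw [inner_smul_left, inner_smul_right, real_inner_comm z (y c)]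
    simp
    ring
  refine ⟨hsym.eigenvectorBasis rfl, fun i k hik => ?_⟩
  have h1 : ⟪T (hsym.eigenvectorBasis rfl i), hsym.eigenvectorBasis rfl k⟫_ℝ = 0 := by
    rw [hsym.apply_eigenvectorBasis]
    simp only [inner_smul_left]
    rw [(hsym.eigenvectorBasis rfl).orthonormal.inner_eq_zero hik]
    simp
  rw [hT, sum_inner] at h1
  rw [← h1]
  refine sum_congr rfl fun c _ => ?_
  rw [inner_smul_left, real_inner_comm, real_inner_comm (y c) (hsym.eigenvectorBasis rfl k)]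
  simp

lemma main_inner {α : Type*} (V : Finset α) (hV : V.Nonempty) (u : α → E) (m : E)
    (hm : ∀ z, ⟪z, m⟫_ℝ = 𝔼 c ∈ V, ⟪z, u c⟫_ℝ) (L : ℝ) (hL0 : 0 ≤ L)
    (hL : ∀ z : E, ‖z‖ = 1 → 𝔼 c ∈ V, ⟪z, u c - m⟫_ℝ ^ 2 ≤ L) (j : ℕ)
    (hj : (j:ℝ) * L ^ 2 ≤ 𝔼 c ∈ V, 𝔼 d ∈ V, ⟪u c - m, u d - m⟫_ℝ ^ 2) :
    (j.factorial : ℝ) * ((𝔼 c ∈ V, 𝔼 d ∈ V, ⟪u c - m, u d - m⟫_ℝ ^ 2) / 2) ^ j ≤
      𝔼 c ∈ V, 𝔼 d ∈ V, ⟪u c, u d⟫_ℝ ^ (2 * j) := by
  obtain ⟨b, hb⟩ := exists_diag V (fun c => u c - m)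
  set Φ : ℝ := 𝔼 c ∈ V, 𝔼 d ∈ V, ⟪u c - m, u d - m⟫_ℝ ^ 2 with hΦ
  have hN : (0:ℝ) < V.card := by exact_mod_cast hV.card_pos
  set N : ℝ := (V.card : ℝ) with hNdef
  set lam : Fin (Module.finrank ℝ E) → ℝ := fun i => 𝔼 c ∈ V, ⟪b i, u c - m⟫_ℝ ^ 2 with hlam
  have hlam0 : ∀ i, 0 ≤ lam i := fun i => expect_nonneg fun c _ => sq_nonneg _
  have hlamL : ∀ i, lam i ≤ L := fun i => hL _ (b.orthonormal.1 i)
  -- Φ = Σ λ²
  have hΦlam : Φ = ∑ i, lam i ^ 2 := by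
    have h1 : ∀ c d, ⟪u c - m, u d - m⟫_ℝ ^ 2 = ∑ i, ∑ k,
        (⟪b i, u c - m⟫_ℝ * ⟪b k, u c - m⟫_ℝ) * (⟪b i, u d - m⟫_ℝ * ⟪b k, u d - m⟫_ℝ) := by
      intro c d
      rw [← b.sum_inner_mul_inner (u c - m) (u d - m), sq, sum_mul_sum]
      refine sum_congr rfl fun i _ => sum_congr rfl fun k _ => ?_
      rw [real_inner_comm (b i) (u c - m), real_inner_comm (b k) (u c - m)]
      ring
    rw [hΦ, expect_eq_sum_div_card]
    simp_rw [expect_eq_sum_div_card, h1]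
    rw [← sum_div, div_div, ← hNdef]
    have h2 : ∑ c ∈ V, ∑ d ∈ V, ∑ i, ∑ k,
        (⟪b i, u c - m⟫_ℝ * ⟪b k, u c - m⟫_ℝ) * (⟪b i, u d - m⟫_ℝ * ⟪b k, u d - m⟫_ℝ)
        = ∑ i, ∑ k, (∑ c ∈ V, ⟪b i, u c - m⟫_ℝ * ⟪b k, u c - m⟫_ℝ) ^ 2 := by
      have h3 : ∀ i k, (∑ c ∈ V, ⟪b i, u c - m⟫_ℝ * ⟪b k, u c - m⟫_ℝ) ^ 2 =
          ∑ c ∈ V, ∑ d ∈ V, (⟪b i, u c - m⟫_ℝ * ⟪b k, u c - m⟫_ℝ) *
            (⟪b i, u d - m⟫_ℝ * ⟪b k, u d - m⟫_ℝ) := by
        intro i k; rw [sq, sum_mul_sum]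
      simp_rw [h3]
      calc _ = ∑ c ∈ V, ∑ i, ∑ d ∈ V, ∑ k, (⟪b i, u c - m⟫_ℝ * ⟪b k, u c - m⟫_ℝ) *
            (⟪b i, u d - m⟫_ℝ * ⟪b k, u d - m⟫_ℝ) := sum_congr rfl fun c _ => sum_comm
        _ = ∑ i, ∑ c ∈ V, ∑ d ∈ V, ∑ k, (⟪b i, u c - m⟫_ℝ * ⟪b k, u c - m⟫_ℝ) *
            (⟪b i, u d - m⟫_ℝ * ⟪b k, u d - m⟫_ℝ) := sum_comm
        _ = ∑ i, ∑ c ∈ V, ∑ k, ∑ d ∈ V, (⟪b i, u c - m⟫_ℝ * ⟪b k, u c - m⟫_ℝ) *
            (⟪b i, u d - m⟫_ℝ * ⟪b k, u d - m⟫_ℝ) :=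
              sum_congr rfl fun i _ => sum_congr rfl fun c _ => sum_comm
        _ = _ := sum_congr rfl fun i _ => sum_comm
    rw [h2, sum_div]
    refine sum_congr rfl fun i _ => ?_
    rw [Finset.sum_eq_single i]
    · simp only [hlam]
      rw [expect_eq_sum_div_card, div_pow, ← hNdef]
      congr 1
      · congr 1
        exact sum_congr rfl fun c _ => by ring
      · ring
    · intro k _ hki
      rw [hb i k (Ne.symm hki)]; ring
    · intro h; exact absurd (mem_univ i) h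
  have hΦ0 : 0 ≤ Φ := by rw [hΦlam]; positivity
  -- trivial case
  rcases hΦ0.eq_or_lt with h0 | hpos
  · rw [← h0]
    rcases Nat.eq_zero_or_pos j with rfl | hjp
    · simp [expect_const hV]
    · rw [zero_div, zero_pow hjp.ne', mul_zero]
      refine expect_nonneg fun c _ => expect_nonneg fun d _ => ?_
      rw [pow_mul]; positivity
  -- main inequality
  have hcore := core (fun c i => ⟪b i, u c⟫_ℝ) V j lam
  have hx : ∀ c d, ∑ i, ⟪b i, u c⟫_ℝ * ⟪b i, u d⟫_ℝ = ⟪u c, u d⟫_ℝ := by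
    intro c d
    rw [← b.sum_inner_mul_inner (u c) (u d)]
    exact sum_congr rfl fun i _ => by rw [real_inner_comm (b i) (u c)]
  simp_rw [hx] at hcore
  have hst := sum_stab_le (fun i => lam i ^ 2) (fun i => sq_nonneg _) (L ^ 2) (sq_nonneg _)
    (fun i => pow_le_pow_left₀ (hlam0 i) (hlamL i) 2) j
  rw [← hΦlam] at hst
  have hst2 : (∑ p : Fin j → Fin (Module.finrank ℝ E), (∏ s, lam (p s) ^ 2) * (stab p : ℝ))
      ≤ (2 * Φ) ^ j := by
    refine hst.trans (pow_le_pow_left₀ (by positivity) (by linarith) j)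
  -- variance lower bound
  have hvar : ∀ i, lam i ≤ 𝔼 c ∈ V, ⟪b i, u c⟫_ℝ ^ 2 := by
    intro i
    have h1 : ∀ c ∈ V, ⟪b i, u c - m⟫_ℝ ^ 2 =
        ⟪b i, u c⟫_ℝ ^ 2 - 2 * ⟪b i, m⟫_ℝ * ⟪b i, u c⟫_ℝ + ⟪b i, m⟫_ℝ ^ 2 := by
      intro c _
      rw [inner_sub_right]; ring
    simp only [hlam]
    rw [expect_congr rfl h1, expect_add_distrib, expect_sub_distrib, ← mul_expect,
      expect_const hV, ← hm]
    nlinarith [sq_nonneg ⟪b i, m⟫_ℝ]
  have hJ : N * Φ ^ j ≤ ∑ v ∈ V, (∑ i, lam i * ⟪b i, u v⟫_ℝ ^ 2) ^ j := by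
    have h1 : Φ ≤ ∑ v ∈ V, N⁻¹ * ∑ i, lam i * ⟪b i, u v⟫_ℝ ^ 2 := by
      rw [← mul_sum, sum_comm, hΦlam, mul_sum]
      refine sum_le_sum fun i _ => ?_
      rw [← mul_sum, ← mul_assoc, mul_comm N⁻¹, mul_assoc, sq]
      apply mul_le_mul_of_nonneg_left _ (hlam0 i)
      have := hvar i
      rw [expect_eq_sum_div_card, ← hNdef, div_eq_inv_mul] at this
      exact this
    have h2 := Real.pow_arith_mean_le_arith_mean_pow V (fun _ => N⁻¹)
      (fun v => ∑ i, lam i * ⟪b i, u v⟫_ℝ ^ 2) (fun _ _ => by positivity)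
      (by rw [sum_const, nsmul_eq_mul, ← hNdef]; exact mul_inv_cancel₀ hN.ne')
      (fun v _ => sum_nonneg fun i _ => mul_nonneg (hlam0 i) (sq_nonneg _)) j
    have h3 : Φ ^ j ≤ ∑ v ∈ V, N⁻¹ * (∑ i, lam i * ⟪b i, u v⟫_ℝ ^ 2) ^ j :=
      (pow_le_pow_left₀ hpos.le h1 j).trans h2
    rw [← mul_sum] at h3
    calc N * Φ ^ j ≤ N * (N⁻¹ * ∑ v ∈ V, (∑ i, lam i * ⟪b i, u v⟫_ℝ ^ 2) ^ j) :=
          mul_le_mul_of_nonneg_left h3 hN.le
      _ = _ := by rw [← mul_assoc, mul_inv_cancel₀ hN.ne', one_mul]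
  -- conclude
  have hRHS : (𝔼 c ∈ V, 𝔼 d ∈ V, ⟪u c, u d⟫_ℝ ^ (2 * j)) =
      (∑ c ∈ V, ∑ d ∈ V, ⟪u c, u d⟫_ℝ ^ (2 * j)) / (N * N) := by
    rw [expect_eq_sum_div_card]
    simp_rw [expect_eq_sum_div_card]
    rw [← sum_div, div_div, ← hNdef]
  have hS0 : 0 ≤ ∑ c ∈ V, ∑ d ∈ V, ⟪u c, u d⟫_ℝ ^ (2 * j) :=
    sum_nonneg fun c _ => sum_nonneg fun d _ => by rw [pow_mul]; positivity
  have hf : (0:ℝ) < j.factorial := by exact_mod_cast Nat.factorial_pos j
  have h6 : (j.factorial : ℝ) * (N * Φ ^ j) ^ 2 ≤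
      (∑ c ∈ V, ∑ d ∈ V, ⟪u c, u d⟫_ℝ ^ (2 * j)) * (2 * Φ) ^ j := by
    calc _ ≤ (j.factorial : ℝ) * (∑ v ∈ V, (∑ i, lam i * ⟪b i, u v⟫_ℝ ^ 2) ^ j) ^ 2 := by
          apply mul_le_mul_of_nonneg_left _ hf.le
          exact pow_le_pow_left₀ (by positivity) hJ 2
      _ ≤ _ := hcore
      _ ≤ _ := mul_le_mul_of_nonneg_left hst2 hS0
  rw [hRHS, le_div_iff₀ (by positivity)]
  have hP : 0 < (2 * Φ) ^ j := by positivity
  refine le_of_mul_le_mul_right ?_ hP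
  calc (j.factorial : ℝ) * (Φ / 2) ^ j * (N * N) * (2 * Φ) ^ j
      = (j.factorial : ℝ) * (N * N) * ((Φ / 2) * (2 * Φ)) ^ j := by
        rw [mul_pow (Φ / 2) (2 * Φ) j]; ring
    _ = (j.factorial : ℝ) * (N * Φ ^ j) ^ 2 := by
        rw [show (Φ / 2) * (2 * Φ) = Φ ^ 2 by ring, ← pow_mul, mul_comm 2 j, pow_mul]; ring
    _ ≤ _ := h6

end inner

open scoped InnerProductSpace in
/-- **Welch type inequality**, in averages over functions on a finite set. -/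
theorem welch {α ι : Type} [Fintype ι] [Nonempty ι] (X : α → ι → ℝ) (V : Finset α)
    (hV : V.Nonempty) (Λ : ℝ) (hΛ0 : 0 ≤ Λ)
    (hΛ : ∀ z : ι → ℝ, (𝔼 x, z x ^ 2) ≤ 1 →
      𝔼 c ∈ V, (𝔼 x, z x * (X c x - 𝔼 d ∈ V, X d x)) ^ 2 ≤ Λ)
    (j : ℕ) (hj : (j:ℝ) * Λ ^ 2 ≤ 𝔼 x, 𝔼 y, ((𝔼 c ∈ V, X c x * X c y) -
      (𝔼 c ∈ V, X c x) * (𝔼 c ∈ V, X c y)) ^ 2) :
    (j.factorial : ℝ) * ((𝔼 x, 𝔼 y, ((𝔼 c ∈ V, X c x * X c y) -
      (𝔼 c ∈ V, X c x) * (𝔼 c ∈ V, X c y)) ^ 2) / 2) ^ j ≤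
      𝔼 c ∈ V, 𝔼 d ∈ V, (𝔼 x, X c x * X d x) ^ (2 * j) := by
  classical
  set n : ℝ := (Fintype.card ι : ℝ) with hn
  have hn0 : 0 < n := by rw [hn]; exact_mod_cast Fintype.card_pos
  set r : ℝ := Real.sqrt n with hr
  have hr0 : 0 < r := Real.sqrt_pos.2 hn0
  have hrr : r * r = n := Real.mul_self_sqrt hn0.le
  -- embedding
  let em : (ι → ℝ) → EuclideanSpace ℝ ι := fun f => WithLp.toLp 2 (fun x => f x / r)
  have hin : ∀ f g : ι → ℝ, ⟪em f, em g⟫_ℝ = 𝔼 x, f x * g x := by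
    intro f g
    rw [Fintype.expect_eq_sum_div_card, ← hn, sum_div]
    simp only [em, PiLp.inner_apply]
    refine sum_congr rfl fun x _ => ?_
    simp only [RCLike.inner_apply, conj_trivial]
    rw [div_mul_div_comm, hrr, mul_comm]
  have hem_sub : ∀ f g : ι → ℝ, em f - em g = em (fun x => f x - g x) := by
    intro f g
    ext x
    simp [em, sub_div]
  -- covariance kernel identity
  set mu : ι → ℝ := fun x => 𝔼 c ∈ V, X c x with hmu
  have hcov : ∀ x y, (𝔼 c ∈ V, X c x * X c y) - (𝔼 c ∈ V, X c x) * (𝔼 c ∈ V, X c y) =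
      𝔼 c ∈ V, (X c x - mu x) * (X c y - mu y) := by
    intro x y
    have h1 : ∀ c ∈ V, (X c x - mu x) * (X c y - mu y) =
        X c x * X c y - X c x * mu y - mu x * X c y + mu x * mu y := by
      intro c _; ring
    rw [expect_congr rfl h1, expect_add_distrib, expect_sub_distrib, expect_sub_distrib,
      ← expect_mul, ← mul_expect, expect_const hV]
    simp only [hmu]
    ring
  have hgram : (𝔼 x, 𝔼 y, ((𝔼 c ∈ V, X c x * X c y) -
      (𝔼 c ∈ V, X c x) * (𝔼 c ∈ V, X c y)) ^ 2) =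
      𝔼 c ∈ V, 𝔼 d ∈ V, ⟪em (X c) - em mu, em (X d) - em mu⟫_ℝ ^ 2 := by
    simp_rw [hcov, hem_sub, hin, sq, expect_mul_expect]
    calc (𝔼 x, 𝔼 y, 𝔼 c ∈ V, 𝔼 d ∈ V, (X c x - mu x) * (X c y - mu y) *
          ((X d x - mu x) * (X d y - mu y)))
        = 𝔼 x, 𝔼 c ∈ V, 𝔼 y, 𝔼 d ∈ V, (X c x - mu x) * (X c y - mu y) *
          ((X d x - mu x) * (X d y - mu y)) := expect_congr rfl fun x _ => expect_comm _ _ _
      _ = 𝔼 c ∈ V, 𝔼 x, 𝔼 y, 𝔼 d ∈ V, (X c x - mu x) * (X c y - mu y) *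
          ((X d x - mu x) * (X d y - mu y)) := expect_comm _ _ _
      _ = 𝔼 c ∈ V, 𝔼 x, 𝔼 d ∈ V, 𝔼 y, (X c x - mu x) * (X c y - mu y) *
          ((X d x - mu x) * (X d y - mu y)) :=
            expect_congr rfl fun c _ => expect_congr rfl fun x _ => expect_comm _ _ _
      _ = 𝔼 c ∈ V, 𝔼 d ∈ V, 𝔼 x, 𝔼 y, (X c x - mu x) * (X c y - mu y) *
          ((X d x - mu x) * (X d y - mu y)) := expect_congr rfl fun c _ => expect_comm _ _ _
      _ = _ := by
          refine expect_congr rfl fun c _ => expect_congr rfl fun d _ =>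
            expect_congr rfl fun x _ => expect_congr rfl fun y _ => by ring
  rw [hgram] at hj ⊢
  have hrhs : (𝔼 c ∈ V, 𝔼 d ∈ V, (𝔼 x, X c x * X d x) ^ (2 * j)) =
      𝔼 c ∈ V, 𝔼 d ∈ V, ⟪em (X c), em (X d)⟫_ℝ ^ (2 * j) := by
    simp_rw [hin]
  rw [hrhs]
  refine main_inner V hV (fun c => em (X c)) (em mu) ?_ Λ hΛ0 ?_ j hj
  · intro z
    obtain ⟨f, rfl⟩ : ∃ f : ι → ℝ, em f = z := ⟨fun x => r * z x, by
      ext x; simp [em]; field_simp⟩
    simp_rw [hin]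
    rw [expect_comm]
    refine expect_congr rfl fun x _ => ?_
    rw [← mul_expect]
  · intro z hz
    obtain ⟨f, rfl⟩ : ∃ f : ι → ℝ, em f = z := ⟨fun x => r * z x, by
      ext x; simp [em]; field_simp⟩
    have h1 : (𝔼 x, f x ^ 2) ≤ 1 := by
      have h2 : ⟪em f, em f⟫_ℝ = 1 := by
        rw [real_inner_self_eq_norm_sq, hz]; norm_num
      rw [hin] at h2
      simp_rw [sq]
      exact h2.le
    have h3 := hΛ f h1
    simp_rw [hem_sub, hin]
    exact h3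

end Pool.Agent.H651Welch
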