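import Pool.Agent.Helper380.LD.Maj
set_option autoImplicit false
set_option linter.unusedSectionVars false
open Finset
open scoped BigOperators

namespace Pool.Agent.H380LD

variable {J : Type} [Fintype J] [DecidableEq J]

/-- partial bias weight -/
noncomputable def wS (m : ℝ) (S : Finset J) (η : J → Bool) : ℝ := ∏ j ∈ S, (1 + m * sg (η j))

lemma wS_nonneg {m : ℝ} (hm : |m| ≤ 1) (S : Finset J) (η : J → Bool) : 0 ≤ wS m S η := by
  unfold wS
  refine prod_nonneg fun j _ => ?_
  have h := abs_le.1 hm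
  cases η j <;> simp [sg] <;> linarith [h.1, h.2]

lemma wS_fl {m : ℝ} {S : Finset J} {c : J} (hc : c ∉ S) (η : J → Bool) :
    wS m S (fl c η) = wS m S η := by
  unfold wS
  refine prod_congr rfl fun j hj => ?_
  have : j ≠ c := fun h => hc (h ▸ hj)
  rw [fl_ne this]

lemma sum_sg_mul {m : ℝ} {S : Finset J} {c : J} (hc : c ∉ S) (g : (J → Bool) → ℝ) :
    ∑ η, wS m S η * (sg (η c) * g η) =
      ∑ η, wS m S η * (sg (η c) * (g η - g (fl c η)) / 2) := by
  rw [sum_half c (fun η => wS m S η * (sg (η c) * g η))]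
  refine sum_congr rfl fun η _ => ?_
  rw [wS_fl hc, fl_self, sg_not]
  ring

/-- monotone odd functions have nonnegative biased mean -/
lemma sum_mono_nonneg {m : ℝ} (hm0 : 0 ≤ m) (hm1 : m ≤ 1) (g : (J → Bool) → ℝ)
    (hodd : ∀ η, g (fall η) = - g η) (hmono : ∀ c η, 0 ≤ sg (η c) * (g η - g (fl c η)))
    (S : Finset J) : 0 ≤ ∑ η, wS m S η * g η := by
  have hm : |m| ≤ 1 := abs_le.2 ⟨by linarith, hm1⟩
  induction S using Finset.induction_on with
  | empty =>
    have h1 : ∑ η, wS m (∅ : Finset J) η * g η = ∑ η, g η := by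
      refine sum_congr rfl fun η _ => by simp [wS]
    rw [h1]
    have h2 := sum_fall (J := J) g
    simp_rw [hodd] at h2
    rw [sum_neg_distrib] at h2
    linarith
  | insert c S hc ih =>
    have h1 : ∀ η, wS m (insert c S) η * g η = wS m S η * g η + m * (wS m S η * (sg (η c) * g η)) := by
      intro η
      unfold wS
      rw [prod_insert hc]; ring
    simp_rw [h1]
    rw [sum_add_distrib, ← mul_sum, sum_sg_mul hc]
    have h2 : 0 ≤ ∑ η, wS m S η * (sg (η c) * (g η - g (fl c η)) / 2) :=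
      sum_nonneg fun η _ => mul_nonneg (wS_nonneg hm S η) (by have := hmono c η; linarith)
    have := mul_nonneg hm0 h2
    linarith

/-- half difference of `|s + 1|` and `|s - 1|` -/
noncomputable def dd (s : ℝ) : ℝ := (|s + 1| - |s - 1|) / 2

lemma dd_neg (s : ℝ) : dd (-s) = - dd s := by
  unfold dd
  rw [show -s + 1 = -(s - 1) by ring, show -s - 1 = -(s + 1) by ring, abs_neg, abs_neg]
  ring

lemma dd_mono {s t : ℝ} (h : s ≤ t) : dd s ≤ dd t := by
  unfold dd
  rcases abs_cases (s + 1) with h1 | h1 <;> rcases abs_cases (s - 1) with h2 | h2 <;>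
  rcases abs_cases (t + 1) with h3 | h3 <;> rcases abs_cases (t - 1) with h4 | h4 <;> linarith

lemma oth_fl_ne {c d : J} (hcd : d ≠ c) (η : J → Bool) :
    oth c (fl d η) = oth c η - 2 * sg (η d) := by
  have h1 : sm (fl d η) = sm η - 2 * sg (η d) := by
    rw [sm_oth d (fl d η), sm_oth d η, oth_fl, fl_self, sg_not]; ring
  have h2 := sm_oth c (fl d η)
  have h3 := sm_oth c η
  rw [fl_ne (Ne.symm hcd)] at h2
  linarith

lemma sg_mul_dd_mono (c d : J) (η : J → Bool) :
    0 ≤ sg (η d) * (dd (oth c η) - dd (oth c (fl d η))) := by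
  by_cases hcd : d = c
  · subst hcd; rw [oth_fl]; simp
  · rw [oth_fl_ne hcd]
    cases h : η d
    · simp only [sg_false]
      have := dd_mono (show oth c η ≤ oth c η - 2 * -1 by linarith)
      linarith
    · simp only [sg_true]
      have := dd_mono (show oth c η - 2 * 1 ≤ oth c η by linarith)
      linarith

/-- the partial biased mean of `|sm|` -/
noncomputable def PhiS (m : ℝ) (S : Finset J) : ℝ := ∑ η, wS m S η * |sm η|

lemma PhiS_insert {m : ℝ} (hm0 : 0 ≤ m) (hm1 : m ≤ 1) {S : Finset J} {c : J} (hc : c ∉ S) :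
    PhiS m S ≤ PhiS m (insert c S) := by
  have h1 : ∀ η, wS m (insert c S) η * |sm η| =
      wS m S η * |sm η| + m * (wS m S η * (sg (η c) * |sm η|)) := by
    intro η
    unfold wS
    rw [prod_insert hc]; ring
  unfold PhiS
  simp_rw [h1]
  rw [sum_add_distrib, ← mul_sum, sum_sg_mul hc]
  have h2 : ∀ η : J → Bool, sg (η c) * (|sm η| - |sm (fl c η)|) / 2 = dd (oth c η) := by
    intro η
    unfold dd
    rw [sm_oth c η, sm_oth c (fl c η), oth_fl, fl_self, sg_not]
    cases η c <;> simp only [sg_true, sg_false] <;> ring_nf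
  simp_rw [h2]
  have := sum_mono_nonneg hm0 hm1 (fun η => dd (oth c η))
    (fun η => by rw [oth_fall, dd_neg]) (fun d η => sg_mul_dd_mono c d η) S
  nlinarith

lemma PhiS_mono {m : ℝ} (hm0 : 0 ≤ m) (hm1 : m ≤ 1) (S T : Finset J) (h : S ⊆ T) :
    PhiS m S ≤ PhiS m T := by
  obtain ⟨U, rfl⟩ : ∃ U, T = S ∪ U := ⟨T, (union_eq_right.2 h).symm⟩
  clear h
  induction U using Finset.induction_on with
  | empty => simp
  | insert c U _ ih =>
    refine ih.trans ?_
    rw [union_insert]
    by_cases hc : c ∈ S ∪ U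
    · rw [insert_eq_of_mem hc]
    · exact PhiS_insert hm0 hm1 hc

lemma wS_fall (m : ℝ) (S : Finset J) (η : J → Bool) : wS m S (fall η) = wS (-m) S η := by
  unfold wS fall
  refine prod_congr rfl fun j _ => ?_
  rw [sg_not]; ring

lemma PhiS_neg (m : ℝ) (S : Finset J) : PhiS (-m) S = PhiS m S := by
  unfold PhiS
  rw [← sum_fall]
  refine sum_congr rfl fun η _ => ?_
  rw [wS_fall, sm_fall, abs_neg, neg_neg]

lemma PhiS_pair (m : ℝ) {a b : J} (hab : a ≠ b) :
    PhiS m {a, b} = ∑ η : J → Bool, |sm η| + m ^ 2 * ∑ η : J → Bool, sg (η a) * sg (η b) * |sm η| := by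
  have h1 : ∀ η : J → Bool, wS m {a, b} η * |sm η| =
      |sm η| + m ^ 2 * (sg (η a) * sg (η b) * |sm η|) + m * ((sg (η a) + sg (η b)) * |sm η|) := by
    intro η
    unfold wS
    rw [prod_pair hab]; ring
  unfold PhiS
  simp_rw [h1]
  rw [sum_add_distrib, sum_add_distrib, ← mul_sum, ← mul_sum]
  have h2 : ∑ η : J → Bool, (sg (η a) + sg (η b)) * |sm η| = 0 := by
    have h3 := sum_fall (fun η : J → Bool => (sg (η a) + sg (η b)) * |sm η|)
    simp only [sm_fall, abs_neg] at h3
    have h4 : ∀ η : J → Bool, (sg (fall η a) + sg (fall η b)) * |sm η| =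
        -((sg (η a) + sg (η b)) * |sm η|) := by
      intro η; unfold fall; rw [sg_not, sg_not]; ring
    simp_rw [h4] at h3
    rw [sum_neg_distrib] at h3
    linarith
  rw [h2]; ring

/-- **biased inequality** (M5) -/
theorem biased {a b : J} (hab : a ≠ b) {m : ℝ} (hm : |m| ≤ 1) :
    ∑ η : J → Bool, |sm η| + m ^ 2 * ∑ η : J → Bool, sg (η a) * sg (η b) * |sm η| ≤
      ∑ η : J → Bool, (∏ j, (1 + m * sg (η j))) * |sm η| := by
  rw [← PhiS_pair m hab]
  change PhiS m {a, b} ≤ PhiS m univ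
  have hm' := abs_le.1 hm
  rcases le_total 0 m with h | h
  · exact PhiS_mono h hm'.2 _ _ (subset_univ _)
  · rw [← PhiS_neg m, ← PhiS_neg m]
    exact PhiS_mono (by linarith) (by linarith) _ _ (subset_univ _)

end Pool.Agent.H380LD
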