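import Pool.Agent.Helper19.RU.Step

set_option autoImplicit false

open MeasureTheory Complex Filter Topology Metric Set
open scoped ENNReal NNReal

/-!
Closedness of the set of sums of `N` products of bounded `H²` functions under pointwise limits,
and reduction of the factorisation theorem to functions holomorphic near the closed ball.
-/

namespace Pool.Agent.Helper651.Closed

open Pool.Agent.HpBall Pool.Agent.Helper19.RU

section gen
variable {X : Type*} [NormedAddCommGroup X] [NormedSpace ℂ X]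

/-- second order estimate -/
theorem taylor_bound {f : X → ℂ} {c z : X} {R B : ℝ} (hR : 0 < R)
    (hd : DifferentiableOn ℂ f (ball c R)) (hB : ∀ w ∈ ball c R, ‖f w‖ ≤ B) (hz : z ∈ ball c R) :
    ‖fderiv ℂ f c‖ ≤ 2 * B / R ∧
      ‖f z - f c - fderiv ℂ f c (z - c)‖ ≤ 4 * B * (‖z - c‖ / R) ^ 2 := by
  have hc : c ∈ ball c R := mem_ball_self hR
  have hB0 : 0 ≤ B := (norm_nonneg _).trans (hB c hc)
  have h1 : ‖fderiv ℂ f c‖ ≤ 2 * B / R := by
    refine Complex.norm_fderiv_le_div_of_mapsTo_ball hd ?_ hR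
    intro w hw
    rw [mem_closedBall, dist_eq_norm]
    calc ‖f w - f c‖ ≤ ‖f w‖ + ‖f c‖ := norm_sub_le _ _
      _ ≤ 2 * B := by linarith [hB w hw, hB c hc]
  refine ⟨h1, ?_⟩
  have hdc : DifferentiableAt ℂ f c := hd.differentiableAt (isOpen_ball.mem_nhds hc)
  let g : X → ℂ := fun w => f w - fderiv ℂ f c (w - c)
  have hg : DifferentiableOn ℂ g (ball c R) := by
    refine hd.sub ?_
    exact ((fderiv ℂ f c).differentiable.comp (differentiable_id.sub_const c)).differentiableOn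
  have hgc : g c = f c := by simp [g]
  have h2 : dist (g z) (g c) ≤ 4 * B * (dist z c / R) ^ (1 + 1) := by
    refine Complex.dist_le_mul_div_pow_of_mapsTo_ball_of_isLittleO (n := 1) hg ?_ ?_ hz
    · intro w hw
      rw [mem_closedBall, dist_eq_norm, hgc]
      have h3 : ‖fderiv ℂ f c (w - c)‖ ≤ 2 * B := by
        have h4 : ‖w - c‖ < R := by rwa [mem_ball, dist_eq_norm] at hw
        calc ‖fderiv ℂ f c (w - c)‖ ≤ ‖fderiv ℂ f c‖ * ‖w - c‖ := ContinuousLinearMap.le_opNorm _ _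
          _ ≤ (2 * B / R) * R := by gcongr
          _ = 2 * B := by field_simp
      calc ‖g w - f c‖ = ‖(f w - f c) - fderiv ℂ f c (w - c)‖ := by simp only [g]; congr 1; ring
        _ ≤ ‖f w - f c‖ + ‖fderiv ℂ f c (w - c)‖ := norm_sub_le _ _
        _ ≤ (‖f w‖ + ‖f c‖) + 2 * B := add_le_add (norm_sub_le _ _) h3
        _ ≤ 4 * B := by linarith [hB w hw, hB c hc]
    · have h3 := hdc.hasFDerivAt.isLittleO
      have h4 : (fun w => g w - g c) = fun w => f w - f c - fderiv ℂ f c (w - c) := by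
        funext w
        rw [hgc]
        simp only [g]
        ring
      rw [h4]
      simpa using h3.norm_right
  have h3 : g z - g c = f z - f c - fderiv ℂ f c (z - c) := by
    rw [hgc]; simp only [g]; ring
  rw [dist_eq_norm, h3, dist_eq_norm] at h2
  simpa using h2

/-- limits along an ultrafilter of uniformly bounded holomorphic functions -/
theorem ultra_limit [FiniteDimensional ℂ X] {U : Ultrafilter ℕ} {f : ℕ → X → ℂ} {c : X} {R B : ℝ}
    (hR : 0 < R) (hd : ∀ k, DifferentiableOn ℂ (f k) (ball c R))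
    (hB : ∀ k, ∀ w ∈ ball c R, ‖f k w‖ ≤ B) {g : X → ℂ}
    (hg : ∀ w ∈ ball c R, Tendsto (fun k => f k w) U (𝓝 (g w))) :
    DifferentiableAt ℂ g c := by
  have hc : c ∈ ball c R := mem_ball_self hR
  have hB0 : 0 ≤ B := (norm_nonneg _).trans (hB 0 c hc)
  have hmem : ∀ k, fderiv ℂ (f k) c ∈ closedBall (0 : X →L[ℂ] ℂ) (2 * B / R) := by
    intro k
    rw [mem_closedBall_zero_iff]
    exact (taylor_bound hR (hd k) (hB k) hc).1
  have : ProperSpace (X →L[ℂ] ℂ) := FiniteDimensional.proper ℂ _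
  obtain ⟨D, _, hD⟩ := (isCompact_closedBall (0 : X →L[ℂ] ℂ) (2 * B / R)).ultrafilter_le_nhds
    (U.map fun k => fderiv ℂ (f k) c) (by
      rw [le_principal_iff]
      exact Filter.Eventually.of_forall (f := (U : Filter ℕ)) hmem)
  have hD' : Tendsto (fun k => fderiv ℂ (f k) c) U (𝓝 D) := hD
  refine ⟨D, ?_⟩
  have hest : ∀ w ∈ ball c R, ‖g w - g c - D (w - c)‖ ≤ 4 * B / R ^ 2 * ‖w - c‖ ^ 2 := by
    intro w hw
    have h1 : Tendsto (fun k => ‖f k w - f k c - fderiv ℂ (f k) c (w - c)‖) U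
        (𝓝 ‖g w - g c - D (w - c)‖) := by
      refine (((hg w hw).sub (hg c hc)).sub ?_).norm
      exact ((ContinuousLinearMap.apply ℂ ℂ (w - c)).continuous.tendsto D).comp hD'
    refine le_of_tendsto h1 (Filter.Eventually.of_forall fun k => ?_)
    refine ((taylor_bound hR (hd k) (hB k) hw).2).trans (le_of_eq ?_)
    field_simp
  rw [hasFDerivAt_iff_isLittleO]
  refine Asymptotics.IsBigO.trans_isLittleO (g := fun w => ‖w - c‖ ^ 2) ?_ ?_
  · refine Asymptotics.IsBigO.of_bound (4 * B / R ^ 2) ?_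
    filter_upwards [isOpen_ball.mem_nhds hc] with w hw
    rw [Real.norm_eq_abs, abs_of_nonneg (by positivity)]
    exact hest w hw
  · have h1 : (fun w : X => ‖w - c‖ ^ 2) = (fun y : X => ‖y‖ ^ 2) ∘ fun w => w - c := rfl
    have h2 : (fun y : X => ‖y‖ ^ 2) =o[𝓝 0] fun y : X => y := by
      have := Asymptotics.isLittleO_norm_pow_id (E' := X) (n := 2) (by norm_num)
      exact this
    have h3 : Tendsto (fun w : X => w - c) (𝓝 c) (𝓝 0) := by
      have : Tendsto (fun w : X => w - c) (𝓝 c) (𝓝 (c - c)) :=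
        (continuous_id.sub continuous_const).tendsto c
      simpa using this
    exact h2.comp_tendsto h3

end gen

/-- point evaluation bound -/
theorem H2_bound (n : ℕ) (hn : 2 ≤ n) (M : ℝ≥0∞) (hM : M < ⊤) (ρ : ℝ) (hρ0 : 0 ≤ ρ) (hρ : ρ < 1) :
    ∃ B : ℝ, ∀ g : E n → ℂ, H2 n M g → ∀ z, ‖z‖ ≤ ρ → ‖g z‖ ≤ B := by
  obtain ⟨k, rfl⟩ : ∃ k, n = k + 2 := ⟨n - 2, by omega⟩
  obtain ⟨C, hC, hsub⟩ := Pool.Agent.Helper633.SubMean.submean k 2 two_pos
  set r : ℝ := (1 + ρ) / 2 with hr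
  have hr0 : 0 < r := by rw [hr]; linarith
  have hr1 : r < 1 := by rw [hr]; linarith
  have hρr : ρ / r < 1 := by rw [div_lt_one hr0, hr]; linarith
  have hρr0 : 0 ≤ ρ / r := by positivity
  set A : ℝ := C / (1 - (ρ / r) ^ 2) ^ (k + 2) with hA
  have hA1 : 0 < 1 - (ρ / r) ^ 2 := by nlinarith
  have hA0 : 0 ≤ A := by positivity
  refine ⟨Real.sqrt (A * M.toReal), ?_⟩
  intro g hg z hz
  have hd : DifferentiableOn ℂ (fun w : E (k + 2) => g ((r : ℂ) • w)) (ball 0 (1 / r)) := by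
    refine hg.1.comp (differentiable_id.const_smul (r : ℂ)).differentiableOn ?_
    intro w hw
    rw [mem_ball_zero_iff] at hw
    change (r : ℂ) • w ∈ ball (0 : E (k + 2)) 1
    rw [mem_ball_zero_iff, norm_smul, Complex.norm_real, Real.norm_eq_abs, abs_of_pos hr0]
    rw [lt_div_iff₀ hr0] at hw
    linarith
  set w : E (k + 2) := ((r⁻¹ : ℝ) : ℂ) • z with hw
  have hwn : ‖w‖ = ‖z‖ / r := by
    rw [hw, norm_smul, Complex.norm_real, Real.norm_eq_abs, abs_of_pos (by positivity)]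
    field_simp
  have hwρ : ‖w‖ ≤ ρ / r := by
    rw [hwn]; gcongr
  have hrw : (r : ℂ) • w = z := by
    rw [hw, smul_smul]
    push_cast
    rw [mul_inv_cancel₀ (by exact_mod_cast hr0.ne'), one_smul]
  have h1 := hsub _ (1 / r) (by rw [lt_div_iff₀ hr0]; linarith) hd w (by
    rw [mem_ball_zero_iff]; linarith)
  simp only [hrw] at h1
  have h2 : ∫⁻ ζ in {ζ : sphere (0 : E (k + 2)) 1 | ‖1 - inner ℂ w (ζ : E (k + 2))‖ ≤
      2 * (1 - ‖w‖ ^ 2)}, ENNReal.ofReal (‖g ((r : ℂ) • (ζ : E (k + 2)))‖ ^ (2 : ℝ))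
        ∂((volume : Measure (E (k + 2))).toSphere) ≤ M := by
    refine (setLIntegral_le_lintegral _ _).trans ?_
    refine le_trans (le_of_eq ?_) (hg.2 r hr0.le hr1)
    refine lintegral_congr fun ζ => ?_
    rw [show (2 : ℝ) = ((2 : ℕ) : ℝ) by norm_num, Real.rpow_natCast,
      ENNReal.ofReal_pow (norm_nonneg _), ofReal_norm]
  have h3 : ENNReal.ofReal (‖g z‖ ^ (2 : ℝ)) ≤ ENNReal.ofReal A * M := by
    refine h1.trans (mul_le_mul' ?_ h2)
    apply ENNReal.ofReal_le_ofReal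
    rw [hA]
    have h4 : ‖w‖ ^ 2 ≤ (ρ / r) ^ 2 := by gcongr
    gcongr
  have h4 : ‖g z‖ ^ 2 ≤ A * M.toReal := by
    have h5 : ENNReal.ofReal A * M = ENNReal.ofReal (A * M.toReal) := by
      rw [ENNReal.ofReal_mul hA0, ENNReal.ofReal_toReal hM.ne]
    rw [h5, show (2 : ℝ) = ((2 : ℕ) : ℝ) by norm_num, Real.rpow_natCast] at h3
    exact (ENNReal.ofReal_le_ofReal_iff (by positivity)).mp h3
  exact Real.le_sqrt_of_sq_le h4

/-- a ball around each interior point on which `H²` functions are uniformly bounded -/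
theorem H2_local (n : ℕ) (hn : 2 ≤ n) (M : ℝ≥0∞) (hM : M < ⊤) (c : E n) (hc : c ∈ ball (0 : E n) 1) :
    ∃ R B : ℝ, 0 < R ∧ ball c R ⊆ ball 0 1 ∧
      ∀ g : E n → ℂ, H2 n M g → ∀ w ∈ ball c R, ‖g w‖ ≤ B := by
  rw [mem_ball_zero_iff] at hc
  obtain ⟨B, hB⟩ := H2_bound n hn M hM ((1 + ‖c‖) / 2) (by positivity) (by linarith)
  have h1 : ∀ w ∈ ball c ((1 - ‖c‖) / 2), ‖w‖ ≤ (1 + ‖c‖) / 2 := by
    intro w hw
    rw [mem_ball, dist_eq_norm] at hw
    have : ‖w‖ ≤ ‖w - c‖ + ‖c‖ := by simpa using norm_add_le (w - c) c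
    linarith
  refine ⟨(1 - ‖c‖) / 2, B, by linarith, ?_, fun g hg w hw => hB g hg w (h1 w hw)⟩
  intro w hw
  rw [mem_ball_zero_iff]
  linarith [h1 w hw]

theorem lip {n : ℕ} {g : E n → ℂ} {c w : E n} {R B : ℝ} (hR : 0 < R)
    (hd : DifferentiableOn ℂ g (ball c R)) (hB : ∀ w ∈ ball c R, ‖g w‖ ≤ B) (hw : w ∈ ball c R) :
    ‖g w - g c‖ ≤ 2 * B / R * ‖w - c‖ := by
  have h := Complex.dist_le_div_mul_dist_of_mapsTo_ball hd (R₂ := 2 * B) ?_ hw
  · rw [dist_eq_norm, dist_eq_norm] at h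
    exact h
  · intro w hw
    rw [mem_closedBall, dist_eq_norm]
    calc ‖g w - g c‖ ≤ ‖g w‖ + ‖g c‖ := norm_sub_le _ _
      _ ≤ 2 * B := by linarith [hB w hw, hB c (mem_ball_self hR)]

/-- limits along an ultrafilter -/
theorem H2_ultra (n : ℕ) (hn : 2 ≤ n) (M : ℝ≥0∞) (hM : M < ⊤) {U : Ultrafilter ℕ}
    {f : ℕ → E n → ℂ} (hf : ∀ k, H2 n M (f k)) {g : E n → ℂ}
    (hg : ∀ w ∈ ball (0 : E n) 1, Tendsto (fun k => f k w) U (𝓝 (g w))) : H2 n M g := by
  have hdiff : DifferentiableOn ℂ g (ball 0 1) := by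
    intro c hc
    obtain ⟨R, B, hR, hsub, hB⟩ := H2_local n hn M hM c hc
    exact (ultra_limit hR (fun k => (hf k).1.mono hsub) (fun k => hB _ (hf k))
      fun w hw => hg w (hsub hw)).differentiableWithinAt
  refine ⟨hdiff, ?_⟩
  -- a sequence converging at all points
  let d := TopologicalSpace.denseSeq (E n)
  have hd : DenseRange d := TopologicalSpace.denseRange_denseSeq (E n)
  have hex : ∀ m : ℕ, ∃ k, ∀ j < m, d j ∈ ball (0 : E n) 1 →
      ‖f k (d j) - g (d j)‖ < 1 / ((m : ℝ) + 1) := by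
    intro m
    have h1 : ∀ᶠ k in (U : Filter ℕ), ∀ j ∈ Finset.range m, d j ∈ ball (0 : E n) 1 →
        ‖f k (d j) - g (d j)‖ < 1 / ((m : ℝ) + 1) := by
      rw [Filter.eventually_all_finset]
      intro j _
      by_cases hj : d j ∈ ball (0 : E n) 1
      · have h2 := (Metric.tendsto_nhds.mp (hg (d j) hj)) (1 / ((m : ℝ) + 1)) (by positivity)
        filter_upwards [h2] with k hk _
        rwa [dist_eq_norm] at hk
      · exact Filter.Eventually.of_forall fun k h => absurd h hj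
    obtain ⟨k, hk⟩ := h1.exists
    exact ⟨k, fun j hj => hk j (Finset.mem_range.mpr hj)⟩
  choose κ hκ using hex
  have hconv : ∀ z ∈ ball (0 : E n) 1, Tendsto (fun m => f (κ m) z) atTop (𝓝 (g z)) := by
    intro z hz
    obtain ⟨R, B, hR, hsub, hB⟩ := H2_local n hn M hM z hz
    have hBg : ∀ w ∈ ball z R, ‖g w‖ ≤ B := by
      intro w hw
      exact le_of_tendsto (hg w (hsub hw)).norm
        (Filter.Eventually.of_forall fun k => hB _ (hf k) w hw)
    have hB0 : 0 ≤ B := (norm_nonneg _).trans (hBg z (mem_ball_self hR))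
    rw [Metric.tendsto_atTop]
    intro ε hε
    set A : ℝ := 2 * B / R with hA
    have hA0 : 0 ≤ A := by positivity
    obtain ⟨w, ⟨j, hj⟩, hw⟩ : ∃ w ∈ range d, w ∈ ball z (min R (ε / (4 * (A + 1)))) := by
      have := hd.exists_mem_open (isOpen_ball (x := z) (ε := min R (ε / (4 * (A + 1)))))
        ⟨z, mem_ball_self (by positivity)⟩
      obtain ⟨j, hj⟩ := this
      exact ⟨d j, ⟨j, rfl⟩, hj⟩
    have hwR : w ∈ ball z R := ball_subset_ball (min_le_left _ _) hw
    have hwε : ‖w - z‖ < ε / (4 * (A + 1)) := by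
      have := ball_subset_ball (min_le_right R (ε / (4 * (A + 1)))) hw
      rwa [mem_ball, dist_eq_norm] at this
    have hAw : A * ‖w - z‖ ≤ ε / 4 := by
      calc A * ‖w - z‖ ≤ (A + 1) * (ε / (4 * (A + 1))) := by gcongr; linarith
        _ = ε / 4 := by field_simp
    obtain ⟨m0, hm0⟩ := exists_nat_gt (4 / ε)
    refine ⟨max m0 (j + 1), fun m hm => ?_⟩
    have hm1 : m0 ≤ m := (le_max_left _ _).trans hm
    have hm2 : j < m := (le_max_right _ _).trans hm
    have h1 := hκ m j hm2 (by rw [hj]; exact hsub hwR)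
    rw [hj] at h1
    have h2 : 1 / ((m : ℝ) + 1) < ε / 4 := by
      have : (m0 : ℝ) ≤ m := by exact_mod_cast hm1
      rw [div_lt_div_iff₀ (by positivity) (by norm_num)]
      rw [div_lt_iff₀ hε] at hm0
      nlinarith
    have h3 := lip hR ((hf (κ m)).1.mono hsub) (hB _ (hf (κ m))) hwR
    have h4 := lip hR (hdiff.mono hsub) hBg hwR
    rw [dist_eq_norm]
    have h5 : f (κ m) z - g z = -(f (κ m) w - f (κ m) z) + (f (κ m) w - g w) + (g w - g z) := by
      ring
    rw [h5]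
    calc _ ≤ ‖f (κ m) w - f (κ m) z‖ + ‖f (κ m) w - g w‖ + ‖g w - g z‖ := by
          refine (norm_add_le _ _).trans ?_
          gcongr
          refine (norm_add_le _ _).trans ?_
          rw [norm_neg]
      _ < ε := by rw [← hA] at h3 h4; linarith
  intro r hr0 hr1
  have hmem : ∀ ζ : sphere (0 : E n) 1, (r : ℂ) • (ζ : E n) ∈ ball (0 : E n) 1 := by
    intro ζ
    have : ‖(ζ : E n)‖ = 1 := by simpa using ζ.2
    rw [mem_ball_zero_iff, norm_smul, Complex.norm_real, Real.norm_eq_abs, abs_of_nonneg hr0, this,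
      mul_one]
    exact hr1
  have hmeas : ∀ m, Measurable fun ζ : sphere (0 : E n) 1 =>
      ‖f (κ m) ((r : ℂ) • (ζ : E n))‖ₑ ^ 2 := by
    intro m
    have h1 : Continuous fun ζ : sphere (0 : E n) 1 => f (κ m) ((r : ℂ) • (ζ : E n)) := by
      refine (hf (κ m)).1.continuousOn.comp_continuous (by fun_prop) hmem
    exact (h1.enorm.measurable).pow_const 2
  have hlim : ∀ ζ : sphere (0 : E n) 1, ‖g ((r : ℂ) • (ζ : E n))‖ₑ ^ 2 =
      liminf (fun m => ‖f (κ m) ((r : ℂ) • (ζ : E n))‖ₑ ^ 2) atTop := by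
    intro ζ
    have h1 := hconv _ (hmem ζ)
    have h2 : Tendsto (fun m => ‖f (κ m) ((r : ℂ) • (ζ : E n))‖ₑ ^ 2) atTop
        (𝓝 (‖g ((r : ℂ) • (ζ : E n))‖ₑ ^ 2)) :=
      ((ENNReal.continuous_pow 2).tendsto _).comp ((continuous_enorm.tendsto _).comp h1)
    exact h2.liminf_eq.symm
  calc ∫⁻ ζ, ‖g ((r : ℂ) • (ζ : E n))‖ₑ ^ 2 ∂(sg n)
      = ∫⁻ ζ, liminf (fun m => ‖f (κ m) ((r : ℂ) • (ζ : E n))‖ₑ ^ 2) atTop ∂(sg n) :=
        lintegral_congr hlim
    _ ≤ liminf (fun m => ∫⁻ ζ, ‖f (κ m) ((r : ℂ) • (ζ : E n))‖ₑ ^ 2 ∂(sg n)) atTop :=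
        lintegral_liminf_le hmeas
    _ ≤ M := by
        refine (liminf_le_liminf (Filter.Eventually.of_forall fun m => (hf (κ m)).2 r hr0 hr1)).trans ?_
        simp

/-- closedness of sums of `N` products -/
theorem closed_limit (n N : ℕ) (hn : 2 ≤ n) (M : ℝ≥0∞) (hM : M < ⊤) (f : ℕ → E n → ℂ) (F : E n → ℂ)
    (hlim : ∀ z ∈ ball (0 : E n) 1, Tendsto (fun k => f k z) atTop (𝓝 (F z)))
    (hf : ∀ k, ∃ g h : Fin N → E n → ℂ, (∀ i, H2 n M (g i)) ∧ (∀ i, H2 n M (h i)) ∧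
      ∀ z ∈ ball (0 : E n) 1, f k z = ∑ i, g i z * h i z) :
    ∃ g h : Fin N → E n → ℂ, (∀ i, H2 n M (g i)) ∧ (∀ i, H2 n M (h i)) ∧
      ∀ z ∈ ball (0 : E n) 1, F z = ∑ i, g i z * h i z := by
  choose g h hg hh hgh using hf
  let U : Ultrafilter ℕ := hyperfilter ℕ
  have hU : (U : Filter ℕ) ≤ atTop := Nat.hyperfilter_le_atTop
  have hex : ∀ (a : ℕ → E n → ℂ), (∀ k, H2 n M (a k)) → ∃ b : E n → ℂ,
      ∀ w ∈ ball (0 : E n) 1, Tendsto (fun k => a k w) U (𝓝 (b w)) := by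
    intro a ha
    have h1 : ∀ w : E n, ∃ y : ℂ, w ∈ ball (0 : E n) 1 → Tendsto (fun k => a k w) U (𝓝 y) := by
      intro w
      by_cases hw : w ∈ ball (0 : E n) 1
      · obtain ⟨R, B, hR, hsub, hB⟩ := H2_local n hn M hM w hw
        obtain ⟨y, _, hy⟩ := (isCompact_closedBall (0 : ℂ) B).ultrafilter_le_nhds
          (U.map fun k => a k w) (by
            rw [le_principal_iff]
            exact Filter.Eventually.of_forall (f := (U : Filter ℕ)) fun k => by
              change a k w ∈ closedBall (0 : ℂ) B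
              rw [mem_closedBall_zero_iff]
              exact hB _ (ha k) w (mem_ball_self hR))
        exact ⟨y, fun _ => hy⟩
      · exact ⟨0, fun h => absurd h hw⟩
    choose b hb using h1
    exact ⟨b, hb⟩
  choose G hG using fun i : Fin N => hex (fun k => g k i) (fun k => hg k i)
  choose H hH using fun i : Fin N => hex (fun k => h k i) (fun k => hh k i)
  refine ⟨G, H, fun i => H2_ultra n hn M hM (fun k => hg k i) (hG i),
    fun i => H2_ultra n hn M hM (fun k => hh k i) (hH i), ?_⟩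
  intro z hz
  have h1 : Tendsto (fun k => f k z) U (𝓝 (F z)) := (hlim z hz).mono_left hU
  have h2 : Tendsto (fun k => f k z) U (𝓝 (∑ i, G i z * H i z)) := by
    have h3 : (fun k => f k z) = fun k => ∑ i, g k i z * h k i z := by
      funext k
      exact hgh k z hz
    rw [h3]
    exact tendsto_finsetSum _ fun i _ => (hG i z hz).mul (hH i z hz)
  exact tendsto_nhds_unique h1 h2

/-- reduction to functions holomorphic near the closed ball -/
theorem goal_of_unit (n N : ℕ) (hn : 2 ≤ n) (M : ℝ≥0∞) (hM : M < ⊤)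
    (hunit : ∀ (R : ℝ) (f : E n → ℂ), 1 < R → DifferentiableOn ℂ f (ball 0 R) →
      (∫⁻ ζ, ‖f (ζ : E n)‖ₑ ∂(sg n) ≤ 1) →
      ∃ g h : Fin N → E n → ℂ, (∀ i, H2 n M (g i)) ∧ (∀ i, H2 n M (h i)) ∧
        ∀ z ∈ ball (0 : E n) 1, f z = ∑ i, g i z * h i z) : Goal n := by
  rintro f hf ⟨C, hC⟩
  set C' : ℝ := max C 1 with hC'
  have hC'0 : 0 < C' := lt_of_lt_of_le one_pos (le_max_right _ _)
  have hC'c : (C' : ℂ) ≠ 0 := by exact_mod_cast hC'0.ne'
  let r : ℕ → ℝ := fun k => 1 - 1 / ((k : ℝ) + 2)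
  have hr0 : ∀ k, 0 < r k := by
    intro k
    have : 1 / ((k : ℝ) + 2) < 1 := by
      rw [div_lt_one (by positivity)]
      have : (0 : ℝ) ≤ k := by positivity
      linarith
    simp only [r]
    linarith
  have hr1 : ∀ k, r k < 1 := by
    intro k
    have : 0 < 1 / ((k : ℝ) + 2) := by positivity
    simp only [r]
    linarith
  have hrlim : Tendsto r atTop (𝓝 1) := by
    have h1 : Tendsto (fun k : ℕ => 1 / ((k : ℝ) + 2)) atTop (𝓝 0) := by
      have := (tendsto_const_div_atTop_nhds_zero_nat (1 : ℝ)).comp (tendsto_add_atTop_nat 2)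
      refine this.congr fun k => ?_
      simp
    simpa [r] using (tendsto_const_nhds (x := (1 : ℝ))).sub h1
  obtain ⟨g, h, hg, hh, hgh⟩ := closed_limit n N hn M hM
    (fun k z => (C' : ℂ)⁻¹ * f ((r k : ℂ) • z)) (fun z => (C' : ℂ)⁻¹ * f z)
    (by
      intro z hz
      refine Tendsto.const_mul _ ?_
      have h1 : ContinuousAt f z := (hf.differentiableAt (isOpen_ball.mem_nhds hz)).continuousAt
      have h2 : Tendsto (fun k => (r k : ℂ) • z) atTop (𝓝 z) := by
        have h3 : Tendsto (fun k => (r k : ℂ)) atTop (𝓝 ((1 : ℝ) : ℂ)) :=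
          (Complex.continuous_ofReal.tendsto 1).comp hrlim
        simpa using h3.smul_const z
      exact h1.tendsto.comp h2)
    (by
      intro k
      refine hunit (1 / r k) _ (by rw [lt_div_iff₀ (hr0 k)]; linarith [hr1 k]) ?_ ?_
      · refine DifferentiableOn.const_mul ?_ _
        refine hf.comp (differentiable_id.const_smul (r k : ℂ)).differentiableOn ?_
        intro w hw
        rw [mem_ball_zero_iff] at hw
        change (r k : ℂ) • w ∈ ball (0 : E n) 1
        rw [mem_ball_zero_iff, norm_smul, Complex.norm_real, Real.norm_eq_abs, abs_of_pos (hr0 k)]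
        rw [lt_div_iff₀ (hr0 k)] at hw
        linarith
      · have h1 : ∀ ζ : sphere (0 : E n) 1, ‖(C' : ℂ)⁻¹ * f ((r k : ℂ) • (ζ : E n))‖ₑ =
            ENNReal.ofReal C'⁻¹ * ‖f ((r k : ℂ) • (ζ : E n))‖ₑ := by
          intro ζ
          rw [enorm_mul]
          congr 1
          rw [← ofReal_norm, norm_inv, Complex.norm_real, Real.norm_eq_abs,
            abs_of_pos hC'0]
        simp only [h1]
        rw [lintegral_const_mul' _ _ ENNReal.ofReal_ne_top]
        calc ENNReal.ofReal C'⁻¹ * ∫⁻ ζ, ‖f ((r k : ℂ) • (ζ : E n))‖ₑ ∂(sg n)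
            ≤ ENNReal.ofReal C'⁻¹ * ENNReal.ofReal C' := by
              gcongr
              exact (hC (r k) (hr0 k).le (hr1 k)).trans (ENNReal.ofReal_le_ofReal (le_max_left _ _))
          _ = 1 := by
              rw [← ENNReal.ofReal_mul (by positivity), inv_mul_cancel₀ hC'0.ne', ENNReal.ofReal_one])
  refine ⟨N, fun i z => (C' : ℂ) * g i z, h, ?_, ?_, ?_⟩
  · intro i
    refine ⟨(hg i).1.const_mul _, (ENNReal.ofReal (C' ^ 2) * M).toReal, fun r hr0 hr1 => ?_⟩
    have h1 : ∀ ζ : sphere (0 : E n) 1, ‖(C' : ℂ) * g i ((r : ℂ) • (ζ : E n))‖ₑ ^ 2 =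
        ENNReal.ofReal (C' ^ 2) * ‖g i ((r : ℂ) • (ζ : E n))‖ₑ ^ 2 := by
      intro ζ
      rw [enorm_mul, mul_pow]
      congr 1
      rw [← ofReal_norm, Complex.norm_real, Real.norm_eq_abs, abs_of_pos hC'0,
        ENNReal.ofReal_pow hC'0.le]
    simp only [h1]
    change ∫⁻ ζ, ENNReal.ofReal (C' ^ 2) * ‖g i ((r : ℂ) • (ζ : E n))‖ₑ ^ 2 ∂(sg n) ≤ _
    rw [lintegral_const_mul' _ _ ENNReal.ofReal_ne_top,
      ENNReal.ofReal_toReal (ENNReal.mul_lt_top ENNReal.ofReal_lt_top hM).ne]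
    gcongr
    exact (hg i).2 r hr0 hr1
  · intro i
    refine ⟨(hh i).1, M.toReal, fun r hr0 hr1 => ?_⟩
    rw [ENNReal.ofReal_toReal hM.ne]
    exact (hh i).2 r hr0 hr1
  · intro z hz
    have h1 := hgh z hz
    have h2 : f z = (C' : ℂ) * ((C' : ℂ)⁻¹ * f z) := by
      rw [← mul_assoc, mul_inv_cancel₀ hC'c, one_mul]
    rw [h2, h1, Finset.mul_sum]
    refine Finset.sum_congr rfl fun i _ => ?_
    ring

end Pool.Agent.Helper651.Closed
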