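import Mathlib
set_option autoImplicit false
set_option linter.unusedSectionVars false
open Finset
open scoped BigOperators

/-! The case `L = 3` of the zero-rate list decoding bound, elementary. -/

namespace Pool.Agent.H651LD3

variable {n : ℕ}

/-- sign -/
def s (b : Bool) : ℝ := if b then 1 else -1

lemma s_sq (b : Bool) : s b * s b = 1 := by cases b <;> norm_num [s]

lemma s_mul (a b : Bool) : s a * s b = 1 - 2 * (if a ≠ b then (1:ℝ) else 0) := by
  cases a <;> cases b <;> norm_num [s]

lemma sum_s (c d : Fin n → Bool) :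
    ∑ t, s (c t) * s (d t) = n - 2 * (hammingDist c d : ℝ) := by
  simp_rw [s_mul]
  rw [sum_sub_distrib, ← mul_sum, ← sum_filter, sum_const, sum_const]
  simp [hammingDist]

/-- pairwise distance larger than `2D` -/
def Far (D : ℕ) (F : Finset (Fin n → Bool)) : Prop :=
  ∀ x ∈ F, ∀ y ∈ F, x ≠ y → 2 * D + 1 ≤ hammingDist x y

lemma far_card {ε : ℝ} (h0 : 0 < ε) {D : ℕ} (hD : (1/4 + ε) * (n:ℝ) < D + 1)
    (F : Finset (Fin n → Bool)) (hF : Far D F) {i j : Fin n} (hij : i ≠ j)
    (hi : ∀ x ∈ F, ∀ y ∈ F, x i = y i) (hj : ∀ x ∈ F, ∀ y ∈ F, x j = y j) :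
    (F.card : ℝ) ≤ 1 + 1 / (4 * ε) := by
  have hn : (0:ℝ) < n := by
    have : 0 < n := i.pos
    exact_mod_cast this
  rcases F.eq_empty_or_nonempty with rfl | hne
  · simp; positivity
  have hc1 : (1:ℝ) ≤ F.card := by exact_mod_cast hne.card_pos
  set N : ℝ := (F.card : ℝ) with hN
  have key : 0 ≤ ∑ t ∈ univ.filter (fun t => t ≠ i ∧ t ≠ j), (∑ c ∈ F, s (c t)) ^ 2 :=
    sum_nonneg fun t _ => sq_nonneg _
  have h1 : ∀ c ∈ F, ∀ d ∈ F, ∑ t ∈ univ.filter (fun t => t ≠ i ∧ t ≠ j), s (c t) * s (d t) =
      n - 2 * (hammingDist c d : ℝ) - 2 := by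
    intro c hc d hd
    have h2 := sum_s c d
    rw [← sum_filter_add_sum_filter_not univ (fun t => t ≠ i ∧ t ≠ j)] at h2
    have h3 : (univ.filter (fun t : Fin n => ¬ (t ≠ i ∧ t ≠ j))) = {i, j} := by
      ext t; simp; tauto
    rw [h3, sum_pair hij, hi c hc d hd, hj c hc d hd, s_sq, s_sq] at h2
    linarith
  have h4 : ∑ t ∈ univ.filter (fun t => t ≠ i ∧ t ≠ j), (∑ c ∈ F, s (c t)) ^ 2 =
      ∑ c ∈ F, ∑ d ∈ F, (n - 2 * (hammingDist c d : ℝ) - 2) := by
    simp_rw [sq, sum_mul_sum]
    rw [sum_comm]
    refine sum_congr rfl fun c hc => ?_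
    rw [sum_comm]
    exact sum_congr rfl fun d hd => h1 c hc d hd
  rw [h4] at key
  have h5 : ∑ c ∈ F, ∑ d ∈ F, ((n:ℝ) - 2 * (hammingDist c d : ℝ) - 2) ≤
      ∑ c ∈ F, ∑ d ∈ F, (-(4 * ε * n) + if c = d then ((n:ℝ) + 4 * ε * n) else 0) := by
    refine sum_le_sum fun c hc => sum_le_sum fun d hd => ?_
    split_ifs with h
    · subst h
      simp
    · have h6 : (2 * D + 1 : ℝ) ≤ hammingDist c d := by exact_mod_cast hF c hc d hd h
      linarith
  have h7 : ∑ c ∈ F, ∑ d ∈ F, (-(4 * ε * (n:ℝ)) + if c = d then ((n:ℝ) + 4 * ε * n) else 0) =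
      N * (N * (-(4 * ε * n))) + N * (n + 4 * ε * n) := by
    simp_rw [sum_add_distrib, sum_const, nsmul_eq_mul]
    rw [← hN]
    congr 1
    have : ∀ c ∈ F, ∑ d ∈ F, (if c = d then ((n:ℝ) + 4 * ε * n) else 0) = n + 4 * ε * n := by
      intro c hc
      rw [sum_ite_eq]; simp [hc]
    rw [sum_congr rfl this, sum_const, nsmul_eq_mul]
  rw [h7] at h5
  have h8 : 0 ≤ N * ((n:ℝ) * (1 - 4 * ε * (N - 1))) := by
    have := key.trans h5
    nlinarith [this]
  have h9 : 0 ≤ 1 - 4 * ε * (N - 1) := by
    by_contra hneg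
    push Not at hneg
    have : N * ((n:ℝ) * (1 - 4 * ε * (N - 1))) < 0 :=
      mul_neg_of_pos_of_neg (by linarith) (mul_neg_of_pos_of_neg hn hneg)
    linarith
  have h10 : (N - 1) * (4 * ε) ≤ 1 := by linarith
  have h11 : N - 1 ≤ 1 / (4 * ε) := by rw [le_div_iff₀ (by positivity)]; exact h10
  linarith

/-- three words, the third pair being the closest, in one ball -/
lemma ball_three {D : ℕ} (a b c : Fin n → Bool) (hab : hammingDist a b ≤ 2 * D)
    (hac : hammingDist a c ≤ 2 * D) (h1 : hammingDist b c ≤ hammingDist a b)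
    (h2 : hammingDist b c ≤ hammingDist a c) :
    ∃ z : Fin n → Bool, hammingDist z a ≤ D ∧ hammingDist z b ≤ D ∧ hammingDist z c ≤ D := by
  classical
  set A : Finset (Fin n) := univ.filter (fun t => b t = c t ∧ a t ≠ b t) with hA
  set B : Finset (Fin n) := univ.filter (fun t => a t = c t ∧ b t ≠ a t) with hB
  set C : Finset (Fin n) := univ.filter (fun t => a t = b t ∧ c t ≠ a t) with hC
  have dAB : Disjoint A B := by
    rw [disjoint_left]; intro t; simp [hA, hB]; intro h1 h2 h3; rw [h3, h1] at h2; exact absurd rfl h2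
  have dAC : Disjoint A C := by
    rw [disjoint_left]; intro t; simp [hA, hC]; intro h1 h2 h3; exact absurd h3 h2
  have dBC : Disjoint B C := by
    rw [disjoint_left]; intro t; simp [hB, hC]; intro h1 h2 h3; exact absurd h3.symm h2
  have eab : hammingDist a b = A.card + B.card := by
    rw [← card_union_of_disjoint dAB]
    unfold hammingDist
    congr 1
    ext t
    simp only [mem_filter, mem_univ, true_and, mem_union, hA, hB]
    cases a t <;> cases b t <;> cases c t <;> simp
  have eac : hammingDist a c = A.card + C.card := by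
    rw [← card_union_of_disjoint dAC]
    unfold hammingDist
    congr 1
    ext t
    simp only [mem_filter, mem_univ, true_and, mem_union, hA, hC]
    cases a t <;> cases b t <;> cases c t <;> simp
  have ebc : hammingDist b c = B.card + C.card := by
    rw [← card_union_of_disjoint dBC]
    unfold hammingDist
    congr 1
    ext t
    simp only [mem_filter, mem_univ, true_and, mem_union, hB, hC]
    cases a t <;> cases b t <;> cases c t <;> simp
  obtain ⟨U, hUA, hU⟩ := exists_subset_card_eq (s := A) (n := A.card - D) (Nat.sub_le _ _)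
  refine ⟨fun t => if t ∈ U then a t else if b t = c t then b t else a t, ?_, ?_, ?_⟩
  · have : hammingDist (fun t => if t ∈ U then a t else if b t = c t then b t else a t) a
        = (A \ U).card := by
      unfold hammingDist
      congr 1
      ext t
      simp only [mem_filter, mem_univ, true_and, mem_sdiff, hA]
      by_cases h : t ∈ U
      · simp [h]
      · simp only [h, if_false, not_false_eq_true, and_true]
        cases a t <;> cases b t <;> cases c t <;> simp
    rw [this, card_sdiff_of_subset hUA, hU]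
    omega
  · have : hammingDist (fun t => if t ∈ U then a t else if b t = c t then b t else a t) b
        ≤ (B ∪ U).card := by
      unfold hammingDist
      apply card_le_card
      intro t
      simp only [mem_filter, mem_univ, true_and, mem_union, hB]
      by_cases h : t ∈ U
      · simp [h]
      · simp only [h, if_false, or_false]
        cases a t <;> cases b t <;> cases c t <;> simp
    have h3 := card_union_le B U
    omega
  · have : hammingDist (fun t => if t ∈ U then a t else if b t = c t then b t else a t) c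
        ≤ (C ∪ U).card := by
      unfold hammingDist
      apply card_le_card
      intro t
      simp only [mem_filter, mem_univ, true_and, mem_union, hC]
      by_cases h : t ∈ U
      · simp [h]
      · simp only [h, if_false, or_false]
        cases a t <;> cases b t <;> cases c t <;> simp
    have h3 := card_union_le C U
    omega

lemma ball_three' {D : ℕ} (a b c : Fin n → Bool) (hab : hammingDist a b ≤ 2 * D)
    (hac : hammingDist a c ≤ 2 * D) (hbc : hammingDist b c ≤ 2 * D) :
    ∃ z : Fin n → Bool, hammingDist z a ≤ D ∧ hammingDist z b ≤ D ∧ hammingDist z c ≤ D := by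
  by_cases h1 : hammingDist b c ≤ hammingDist a b ∧ hammingDist b c ≤ hammingDist a c
  · exact ball_three a b c hab hac h1.1 h1.2
  by_cases h2 : hammingDist a c ≤ hammingDist a b ∧ hammingDist a c ≤ hammingDist b c
  · obtain ⟨z, hb, ha, hc⟩ := ball_three b a c (by rwa [hammingDist_comm]) hbc
      (by rw [hammingDist_comm b a]; exact h2.1) h2.2
    exact ⟨z, ha, hb, hc⟩
  · obtain ⟨z, hc, ha, hb⟩ := ball_three c a b (by rwa [hammingDist_comm])
      (by rwa [hammingDist_comm]) (by rw [hammingDist_comm c a]; omega)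
      (by rw [hammingDist_comm c b]; omega)
    exact ⟨z, ha, hb, hc⟩

/-- triangle free graphs with small far sets are small -/
lemma tri_free {D : ℕ} (R : ℝ) (hR : 1 ≤ R) (C : Finset (Fin n → Bool))
    (hfar : ∀ F ⊆ C, Far D F → (F.card : ℝ) ≤ R)
    (htri : ∀ a ∈ C, ∀ b ∈ C, ∀ c ∈ C, a ≠ b → a ≠ c → b ≠ c →
      hammingDist a b ≤ 2 * D → hammingDist a c ≤ 2 * D → 2 * D + 1 ≤ hammingDist b c) :
    (C.card : ℝ) ≤ R + R ^ 2 := by
  classical
  obtain ⟨I, hI, hmax⟩ := exists_max_image (C.powerset.filter (fun F => Far D F)) card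
    ⟨∅, by simp [Far]⟩
  simp only [mem_filter, mem_powerset] at hI hmax
  have hcov : C ⊆ I ∪ I.biUnion (fun i => C.filter (fun c => c ≠ i ∧ hammingDist i c ≤ 2 * D)) := by
    intro c hc
    by_cases hcI : c ∈ I
    · exact mem_union_left _ hcI
    · apply mem_union_right
      by_contra hnot
      simp only [mem_biUnion, mem_filter, not_exists, not_and, not_le] at hnot
      have hfar' : Far D (insert c I) := by
        intro x hx y hy hxy
        rw [mem_insert] at hx hy
        rcases hx with rfl | hx <;> rcases hy with rfl | hy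
        · exact absurd rfl hxy
        · have := hnot y hy hc hxy
          rw [hammingDist_comm]; omega
        · have := hnot x hx hc (Ne.symm hxy)
          omega
        · exact hI.2 x hx y hy hxy
      have := hmax (insert c I) ⟨insert_subset hc hI.1, hfar'⟩
      rw [card_insert_of_notMem hcI] at this
      omega
  have h1 : (C.card : ℝ) ≤ I.card + ∑ i ∈ I, ((C.filter (fun c => c ≠ i ∧ hammingDist i c ≤ 2 * D)).card : ℝ) := by
    have := (card_le_card hcov).trans ((card_union_le _ _).trans (Nat.add_le_add_left card_biUnion_le _))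
    exact_mod_cast this
  have h2 : ∀ i ∈ I, ((C.filter (fun c => c ≠ i ∧ hammingDist i c ≤ 2 * D)).card : ℝ) ≤ R := by
    intro i hi
    apply hfar _ (filter_subset _ _)
    intro x hx y hy hxy
    rw [mem_filter] at hx hy
    exact htri i (hI.1 hi) x hx.1 y hy.1 (Ne.symm hx.2.1) (Ne.symm hy.2.1) hxy hx.2.2 hy.2.2
  have h3 : (I.card : ℝ) ≤ R := hfar I hI.1 hI.2
  have h4 := sum_le_sum h2
  rw [sum_const, nsmul_eq_mul] at h4
  nlinarith

theorem L3 (ε : ℝ) (h0 : 0 < ε) (h1 : ε < 1) (n : ℕ) (code : Finset (Fin n → Bool))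
    (h : ∀ x : Fin n → Bool,
      (code.filter (fun c => (hammingDist x c : ℝ) ≤ (1/4 + ε) * (n:ℝ))).card < 3) :
    (code.card : ℝ) ≤ 1000 * (1/ε)^2 := by
  classical
  have hε1 : 1 ≤ 1 / ε := by rw [le_div_iff₀ h0]; linarith
  have hε2 : 1 ≤ (1 / ε) ^ 2 := by nlinarith
  rcases Nat.lt_or_ge n 2 with hn | hn
  · have : code.card ≤ 2 := by
      refine (card_le_univ code).trans ?_
      simp only [Fintype.card_pi, Fintype.card_bool, prod_const, card_univ, Fintype.card_fin]
      interval_cases n <;> norm_num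
    have : (code.card : ℝ) ≤ 2 := by exact_mod_cast this
    linarith
  set D : ℕ := ⌊(1/4 + ε) * (n:ℝ)⌋₊ with hDdef
  have hD1 : (1/4 + ε) * (n:ℝ) < D + 1 := Nat.lt_floor_add_one _
  have hD2 : (D:ℝ) ≤ (1/4 + ε) * (n:ℝ) := Nat.floor_le (by positivity)
  let i : Fin n := ⟨0, by omega⟩
  let j : Fin n := ⟨1, by omega⟩
  have hij : i ≠ j := by intro hh; have := congrArg Fin.val hh; simp [i, j] at this
  -- triangle free
  have htri : ∀ a ∈ code, ∀ b ∈ code, ∀ c ∈ code, a ≠ b → a ≠ c → b ≠ c →
      hammingDist a b ≤ 2 * D → hammingDist a c ≤ 2 * D → 2 * D + 1 ≤ hammingDist b c := by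
    intro a ha b hb c hc hab hac hbc dab dac
    by_contra hlt
    obtain ⟨z, hza, hzb, hzc⟩ := ball_three' a b c dab dac (by omega)
    have hle : ∀ c : Fin n → Bool, hammingDist z c ≤ D → (hammingDist z c : ℝ) ≤ (1/4 + ε) * (n:ℝ) := by
      intro c hc
      have : (hammingDist z c : ℝ) ≤ D := by exact_mod_cast hc
      linarith
    have hsub : ({a, b, c} : Finset (Fin n → Bool)) ⊆
        code.filter (fun c => (hammingDist z c : ℝ) ≤ (1/4 + ε) * (n:ℝ)) := by
      intro x hx
      simp only [mem_insert, mem_singleton] at hx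
      rw [mem_filter]
      rcases hx with rfl | rfl | rfl
      · exact ⟨ha, hle _ hza⟩
      · exact ⟨hb, hle _ hzb⟩
      · exact ⟨hc, hle _ hzc⟩
    have := card_le_card hsub
    rw [card_eq_three.2 ⟨a, b, c, hab, hac, hbc, rfl⟩] at this
    have := h z
    omega
  have hpart : ∀ p : Bool × Bool, ((code.filter (fun c => (c i, c j) = p)).card : ℝ) ≤
      (1 + 1 / (4 * ε)) + (1 + 1 / (4 * ε)) ^ 2 := by
    intro p
    apply tri_free (D := D)
    · have : 0 < 1 / (4 * ε) := by positivity
      linarith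
    · intro F hF hfar
      apply far_card h0 hD1 F hfar hij
      · intro x hx y hy
        have h1 := (mem_filter.1 (hF hx)).2
        have h2 := (mem_filter.1 (hF hy)).2
        rw [← h2] at h1
        exact (Prod.mk.inj h1).1
      · intro x hx y hy
        have h1 := (mem_filter.1 (hF hx)).2
        have h2 := (mem_filter.1 (hF hy)).2
        rw [← h2] at h1
        exact (Prod.mk.inj h1).2
    · intro a ha b hb c hc
      exact htri a (mem_filter.1 ha).1 b (mem_filter.1 hb).1 c (mem_filter.1 hc).1
  have hsum : (code.card : ℝ) = ∑ p : Bool × Bool, ((code.filter (fun c => (c i, c j) = p)).card : ℝ) := by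
    rw [← Nat.cast_sum]
    congr 1
    exact card_eq_sum_card_fiberwise (fun _ _ => by simp)
  rw [hsum]
  have h5 := sum_le_sum fun p (_ : p ∈ (univ : Finset (Bool × Bool))) => hpart p
  rw [sum_const, nsmul_eq_mul] at h5
  have h6 : ((univ : Finset (Bool × Bool)).card : ℝ) = 4 := by
    simp [card_univ]
  rw [h6] at h5
  have h7 : 1 / (4 * ε) = (1/ε) / 4 := by field_simp
  rw [h7] at h5
  nlinarith

end Pool.Agent.H651LD3
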