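import Pool.Agent.Helper380.LD.Basic
import Pool.Agent.Helper651.LDThree
set_option autoImplicit false
set_option linter.unusedSectionVars false
open Finset
open scoped BigOperators

namespace Pool.Agent.H380LD

/-- the main theorem for `k ≥ 2` in terms of `Good` -/
def PolyMain : Prop :=
  ∀ k : ℕ, 2 ≤ k → ∃ C : ℝ, ∃ K : ℕ, ∀ ε : ℝ, 0 < ε → ε < 1 → ∀ n : ℕ, 0 < n →
    ∀ V : Finset (Fin n → Bool), ¬ Good (fun (c : Fin n → Bool) (x : Fin n) => sg (c x)) V k (2 * ε) →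
      (V.card : ℝ) ≤ C * (1 / ε) ^ K

lemma expect_sg {n : ℕ} (hn : 0 < n) (z c : Fin n → Bool) :
    𝔼 x, sg (z x) * sg (c x) = 1 - 2 * (hammingDist z c : ℝ) / n := by
  rw [Fintype.expect_eq_sum_div_card, Fintype.card_fin]
  have h : ∑ x, sg (z x) * sg (c x) = n - 2 * (hammingDist z c : ℝ) :=
    Pool.Agent.H651LD3.sum_s z c
  rw [h]
  have : (n:ℝ) ≠ 0 := by positivity
  field_simp

lemma tau_eq (k : ℕ) : (1 : ℝ) / 2 - (Nat.choose (2 * k) k : ℝ) / (2 : ℝ) ^ (2 * k + 1) =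
    (1 - kap k) / 2 := by
  unfold kap
  rw [pow_succ, pow_mul]
  norm_num
  field_simp

lemma not_good {ε : ℝ} {n L : ℕ} (hn : 0 < n) (code : Finset (Fin n → Bool))
    (h : ∀ x : Fin n → Bool, (code.filter (fun c => (hammingDist x c : ℝ) ≤
      ((1 : ℝ) / 2 - (Nat.choose (2 * (L / 2)) (L / 2) : ℝ) / (2 : ℝ) ^ (2 * (L / 2) + 1) + ε)
        * (n : ℝ))).card < L) :
    ¬ Good (fun (c : Fin n → Bool) (x : Fin n) => sg (c x)) code (L / 2) (2 * ε) := by
  rintro ⟨W, hWc, hW, z, hz⟩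
  have hsub : W ⊆ code.filter (fun c => (hammingDist z c : ℝ) ≤
      ((1 : ℝ) / 2 - (Nat.choose (2 * (L / 2)) (L / 2) : ℝ) / (2 : ℝ) ^ (2 * (L / 2) + 1) + ε)
        * (n : ℝ)) := by
    intro c hc
    rw [mem_filter]
    refine ⟨hWc hc, ?_⟩
    have h1 := hz c hc
    rw [expect_sg hn] at h1
    rw [tau_eq]
    have hn' : (0:ℝ) < n := by exact_mod_cast hn
    have h2 : 2 * (hammingDist z c : ℝ) / n ≤ 1 - kap (L/2) + 2 * ε := by linarith
    rw [div_le_iff₀ hn'] at h2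
    linarith
  have h1 := card_le_card hsub
  have h2 := h z
  omega

/-- from the `Good` form to the frozen form -/
theorem wrap (H : PolyMain) :
    ∀ L : ℕ, 2 ≤ L →
      ∃ C : ℝ, ∃ K : ℕ,
        ∀ ε : ℝ, 0 < ε → ε < 1 →
          ∀ n : ℕ, ∀ code : Finset (Fin n → Bool),
            (∀ x : Fin n → Bool,
              (code.filter (fun c => (hammingDist x c : ℝ) ≤
                ((1 : ℝ) / 2 - (Nat.choose (2 * (L / 2)) (L / 2) : ℝ) / (2 : ℝ) ^ (2 * (L / 2) + 1) + ε)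
                  * (n : ℝ))).card < L) →
            (code.card : ℝ) ≤ C * (1 / ε) ^ K := by
  intro L hL
  rcases Nat.lt_or_ge L 4 with h4 | h4
  · refine ⟨1000, 2, fun ε h0 h1 n code h => ?_⟩
    apply Pool.Agent.H651LD3.L3 ε h0 h1 n code
    intro x
    have h2 := h x
    have hL2 : L / 2 = 1 := by omega
    rw [hL2] at h2
    have h3 : ((1 : ℝ) / 2 - (Nat.choose (2 * 1) 1 : ℝ) / (2 : ℝ) ^ (2 * 1 + 1) + ε) = 1/4 + ε := by
      norm_num
    rw [h3] at h2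
    omega
  · obtain ⟨C, K, hCK⟩ := H (L / 2) (by omega)
    refine ⟨max C 1, K, fun ε h0 h1 n code h => ?_⟩
    have hε1 : 1 ≤ 1 / ε := by rw [le_div_iff₀ h0]; linarith
    have hp : 1 ≤ (1 / ε) ^ K := one_le_pow₀ hε1
    rcases Nat.eq_zero_or_pos n with rfl | hn
    · have h2 : code.card ≤ 1 := by
        refine (card_le_univ code).trans ?_
        simp
      have h3 : (code.card : ℝ) ≤ 1 := by exact_mod_cast h2
      nlinarith [le_max_right C 1]
    · have h2 := hCK ε h0 h1 n hn code (not_good hn code h)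
      exact h2.trans (mul_le_mul_of_nonneg_right (le_max_left _ _) (by positivity))

/-- wrapper for the general form of the main theorem -/
theorem wrapper (H : ∀ k : ℕ, 2 ≤ k → ∃ C : ℝ, ∃ K : ℕ, ∀ ε : ℝ, 0 < ε → ε < 1 →
      ∀ (ι α : Type) [Fintype ι] [Nonempty ι] [DecidableEq α] (X : α → ι → ℝ), Sg X →
        ∀ V : Finset α, C * (1/ε)^K < (V.card : ℝ) → Good X V k (2*ε)) :
    ∀ L : ℕ, 2 ≤ L →
      ∃ C : ℝ, ∃ K : ℕ,
        ∀ ε : ℝ, 0 < ε → ε < 1 →
          ∀ n : ℕ, ∀ code : Finset (Fin n → Bool),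
            (∀ x : Fin n → Bool,
              (code.filter (fun c => (hammingDist x c : ℝ) ≤
                ((1 : ℝ) / 2 - (Nat.choose (2 * (L / 2)) (L / 2) : ℝ) / (2 : ℝ) ^ (2 * (L / 2) + 1) + ε)
                  * (n : ℝ))).card < L) →
            (code.card : ℝ) ≤ C * (1 / ε) ^ K := by
  apply wrap
  intro k hk
  obtain ⟨C, K, hCK⟩ := H k hk
  refine ⟨C, K, fun ε h0 h1 n hn V hV => ?_⟩
  haveI : Nonempty (Fin n) := ⟨⟨0, hn⟩⟩
  by_contra hlt
  push Not at hlt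
  refine hV (hCK ε h0 h1 (Fin n) (Fin n → Bool) (fun c x => sg (c x)) ?_ V hlt)
  intro c x
  cases h : c x <;> simp [sg, h]

end Pool.Agent.H380LD
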